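import Pool.Agent.Lib.BVS.Spec
import Pool.Agent.Lib.MP_d1f1b5_nt.TB.KUM

/-!
# BILP

The bilinear large sieve with the condition `Y₁ < kd ≤ Y₂` for the primitive characters of all moduli in `(R, 2R]`.
-/

set_option autoImplicit false

namespace Pool.Agent.Lib.BVS

open Finset Filter Topology
open scoped Classical
open Pool.Agent.Lib.MP_d1f1b5_nt.TB (BILM.expand BILM.inv_sum_le specDFT)

noncomputable section

namespace BILPM

theorem psum_mono (q : ℕ) (Φ Ψ : DirichletCharacter ℂ q → ℝ) (h : ∀ χ, Φ χ ≤ Ψ χ) :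
    psum q Φ ≤ psum q Ψ := by
  rcases Nat.eq_zero_or_pos q with h0 | h0
  · unfold psum
    rw [dif_pos h0, dif_pos h0]
  · have : NeZero q := ⟨h0.ne'⟩
    rw [psum_eq, psum_eq]
    exact Finset.sum_le_sum fun χ _ => h χ

theorem psum_nonneg (q : ℕ) (Φ : DirichletCharacter ℂ q → ℝ) (h : ∀ χ, 0 ≤ Φ χ) :
    0 ≤ psum q Φ := by
  rcases Nat.eq_zero_or_pos q with h0 | h0
  · unfold psum
    rw [dif_pos h0]
  · have : NeZero q := ⟨h0.ne'⟩
    rw [psum_eq]
    exact Finset.sum_nonneg fun χ _ => h χ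

theorem psum_sum (q : ℕ) (s : Finset ℕ) (Φ : ℕ → DirichletCharacter ℂ q → ℝ) :
    psum q (fun χ => ∑ i ∈ s, Φ i χ) = ∑ i ∈ s, psum q (Φ i) := by
  rcases Nat.eq_zero_or_pos q with h0 | h0
  · unfold psum
    rw [dif_pos h0]
    simp [dif_pos h0]
  · have : NeZero q := ⟨h0.ne'⟩
    rw [psum_eq, Finset.sum_comm]
    exact Finset.sum_congr rfl fun i _ => (psum_eq q (Φ i)).symm

theorem psum_cs (q : ℕ) (F G : DirichletCharacter ℂ q → ℝ) :
    psum q (fun χ => F χ * G χ) ≤ √(psum q (fun χ => F χ ^ 2)) * √(psum q (fun χ => G χ ^ 2)) := by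
  rcases Nat.eq_zero_or_pos q with h0 | h0
  · unfold psum
    rw [dif_pos h0]
    positivity
  · have : NeZero q := ⟨h0.ne'⟩
    rw [psum_eq, psum_eq, psum_eq]
    exact Real.sum_mul_le_sqrt_mul_sqrt _ _ _

theorem cs (s : Finset ℕ) (F G : ∀ q : ℕ, DirichletCharacter ℂ q → ℝ) :
    ∑ q ∈ s, psum q (fun χ => F q χ * G q χ)
      ≤ √(∑ q ∈ s, psum q (fun χ => F q χ ^ 2)) * √(∑ q ∈ s, psum q (fun χ => G q χ ^ 2)) := by
  refine (Finset.sum_le_sum fun q _ => psum_cs q (F q) (G q)).trans ?_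
  exact Real.sum_sqrt_mul_sqrt_le _ (fun q => psum_nonneg q _ fun χ => sq_nonneg _)
    (fun q => psum_nonneg q _ fun χ => sq_nonneg _)

/-- the sum over `(K, 2K]` as a sum over `[1, 2K]` -/
theorem ext_sum {α : Type*} [AddCommMonoid α] (K : ℕ) (f : ℕ → α) :
    ∑ k ∈ Icc 1 (2 * K), (if K < k then f k else 0) = ∑ k ∈ Ioc K (2 * K), f k := by
  rw [← Finset.sum_filter]
  apply Finset.sum_congr _ fun _ _ => rfl
  ext x
  simp only [Finset.mem_filter, Finset.mem_Icc, Finset.mem_Ioc]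
  omega

end BILPM

theorem specBILP (hLSP : SpecLSP) : SpecBILP := by
  obtain ⟨CL, hCL, hL⟩ := hLSP
  obtain ⟨CD, hCD, hD⟩ := specDFT
  refine ⟨4 * CL * CD, by positivity, fun R K M Y₁ Y₂ a b hR hK hM hY hYKM => ?_⟩
  have hex : ∀ k : ℕ, ∃ c : ℕ → ℂ, k ∈ Ioc K (2 * K) →
      (∀ h < M, ‖c h‖ ≤ CD / (1 + ((min h (M - h) : ℕ) : ℝ))) ∧
      ∀ n : ℕ, 1 ≤ n → n ≤ M →
        ∑ h ∈ range M, c h * Complex.exp (2 * Real.pi * Complex.I * ((h : ℂ) * n / M))
          = if Y₁ / k < n ∧ n ≤ Y₂ / k then 1 else 0 := by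
    intro k
    by_cases hk : k ∈ Ioc K (2 * K)
    · rw [Finset.mem_Ioc] at hk
      have h1 : Y₂ / k ≤ M := by
        apply Nat.div_le_of_le_mul
        exact hYKM.trans (Nat.mul_le_mul_right M hk.1.le)
      obtain ⟨c, hc⟩ := hD M (Y₁ / k) (Y₂ / k) hM (Nat.div_le_div_right hY) h1
      exact ⟨c, fun _ => hc⟩
    · exact ⟨0, fun h => absurd h hk⟩
  choose c hc using hex
  set SA : ℝ := ∑ k ∈ Ioc K (2 * K), (a k) ^ 2 with hSA
  set SB : ℝ := ∑ d ∈ Icc 1 M, (b d) ^ 2 with hSB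
  have hSA0 : 0 ≤ SA := Finset.sum_nonneg fun _ _ => sq_nonneg _
  have hSB0 : 0 ≤ SB := Finset.sum_nonneg fun _ _ => sq_nonneg _
  let A : ℕ → ∀ q : ℕ, DirichletCharacter ℂ q → ℝ := fun h q χ =>
    ‖∑ k ∈ Ioc K (2 * K), (((a k : ℝ) : ℂ) * c k h) * χ (k : ZMod q)‖
  let B : ℕ → ∀ q : ℕ, DirichletCharacter ℂ q → ℝ := fun h q χ =>
    ‖∑ d ∈ Icc 1 M, (((b d : ℝ) : ℂ) *
            Complex.exp (2 * Real.pi * Complex.I * ((h : ℂ) * d / M))) * χ (d : ZMod q)‖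
  have step1 : ∑ q ∈ Ioc R (2 * R), psum q (fun χ => ‖∑ k ∈ Ioc K (2 * K),
      ∑ d ∈ (Icc 1 M).filter (fun d => Y₁ < k * d ∧ k * d ≤ Y₂),
        ((a k * b d : ℝ) : ℂ) * (χ (k : ZMod q) * χ (d : ZMod q))‖)
      ≤ ∑ h ∈ range M, ∑ q ∈ Ioc R (2 * R), psum q (fun χ => A h q χ * B h q χ) := by
    rw [Finset.sum_comm]
    apply Finset.sum_le_sum
    intro q _
    rw [← BILPM.psum_sum]
    apply BILPM.psum_mono
    intro χ
    rw [BILM.expand q K M Y₁ Y₂ a b χ c (fun k hk => (hc k hk).2)]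
    refine (norm_sum_le _ _).trans ?_
    apply Finset.sum_le_sum
    intro h _
    rw [norm_mul]
  have step2 : ∀ h ∈ range M, ∑ q ∈ Ioc R (2 * R), psum q (fun χ => A h q χ * B h q χ)
      ≤ (2 * CL * CD * √(((K : ℝ) + (R : ℝ) ^ 2) * ((M : ℝ) + (R : ℝ) ^ 2)) * √(SA * SB)) *
        (1 / (1 + ((min h (M - h) : ℕ) : ℝ))) := by
    intro h hh
    rw [Finset.mem_range] at hh
    set w : ℝ := 1 / (1 + ((min h (M - h) : ℕ) : ℝ)) with hw
    have hw0 : 0 ≤ w := by positivity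
    refine (BILPM.cs (Ioc R (2 * R)) (A h) (B h)).trans ?_
    have hA : ∑ q ∈ Ioc R (2 * R), psum q (fun χ => A h q χ ^ 2)
        ≤ (2 * CL) * ((K : ℝ) + (R : ℝ) ^ 2) * ((CD * w) ^ 2 * SA) := by
      have h1 := hL R (2 * K) (fun k => if K < k then ((a k : ℝ) : ℂ) * c k h else 0) hR (by omega)
      have h1a : ∀ q (χ : DirichletCharacter ℂ q),
          ∑ n ∈ Icc 1 (2 * K), (if K < n then ((a n : ℝ) : ℂ) * c n h else 0) * χ (n : ZMod q)
          = ∑ k ∈ Ioc K (2 * K), (((a k : ℝ) : ℂ) * c k h) * χ (k : ZMod q) := by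
        intro q χ
        rw [← BILPM.ext_sum]
        apply Finset.sum_congr rfl
        intro n _
        rw [ite_mul, zero_mul]
      have h1b : ∑ n ∈ Icc 1 (2 * K), ‖(if K < n then ((a n : ℝ) : ℂ) * c n h else 0)‖ ^ 2
          = ∑ k ∈ Ioc K (2 * K), ‖((a k : ℝ) : ℂ) * c k h‖ ^ 2 := by
        rw [← BILPM.ext_sum]
        apply Finset.sum_congr rfl
        intro n _
        by_cases hn : K < n
        · rw [if_pos hn, if_pos hn]
        · rw [if_neg hn, if_neg hn]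
          simp
      rw [h1b] at h1
      have h1c : ∑ q ∈ Ioc R (2 * R), psum q (fun χ => A h q χ ^ 2)
          = ∑ q ∈ Ioc R (2 * R), psum q (fun χ => ‖∑ n ∈ Icc 1 (2 * K),
              (if K < n then ((a n : ℝ) : ℂ) * c n h else 0) * χ (n : ZMod q)‖ ^ 2) := by
        apply Finset.sum_congr rfl
        intro q _
        congr 1
        funext χ
        rw [h1a]
      rw [h1c]
      refine h1.trans ?_
      have hS : ∑ k ∈ Ioc K (2 * K), ‖((a k : ℝ) : ℂ) * c k h‖ ^ 2 ≤ (CD * w) ^ 2 * SA := by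
        rw [hSA, Finset.mul_sum]
        apply Finset.sum_le_sum
        intro k hk
        have h2 := (hc k hk).1 h hh
        rw [norm_mul, Complex.norm_real, mul_pow, Real.norm_eq_abs, sq_abs, mul_comm]
        apply mul_le_mul_of_nonneg_right _ (sq_nonneg _)
        apply pow_le_pow_left₀ (norm_nonneg _)
        rw [hw, mul_one_div]
        exact h2
      have hK1 : CL * (((2 * K : ℕ) : ℝ) + (R : ℝ) ^ 2) ≤ (2 * CL) * ((K : ℝ) + (R : ℝ) ^ 2) := by
        push_cast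
        nlinarith [sq_nonneg (R : ℝ), hCL]
      have hS0 : 0 ≤ ∑ k ∈ Ioc K (2 * K), ‖((a k : ℝ) : ℂ) * c k h‖ ^ 2 :=
        Finset.sum_nonneg fun _ _ => sq_nonneg _
      exact mul_le_mul hK1 hS hS0 (by positivity)
    have hB : ∑ q ∈ Ioc R (2 * R), psum q (fun χ => B h q χ ^ 2)
        ≤ (2 * CL) * ((M : ℝ) + (R : ℝ) ^ 2) * SB := by
      have h1 := hL R M (fun d => ((b d : ℝ) : ℂ) *
            Complex.exp (2 * Real.pi * Complex.I * ((h : ℂ) * d / M))) hR hM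
      refine h1.trans ?_
      have h4 : ∑ n ∈ Icc 1 M, ‖((b n : ℝ) : ℂ) *
            Complex.exp (2 * Real.pi * Complex.I * ((h : ℂ) * n / M))‖ ^ 2 = SB := by
        rw [hSB]
        apply Finset.sum_congr rfl
        intro d _
        have h3 : ‖Complex.exp (2 * Real.pi * Complex.I * ((h : ℂ) * d / M))‖ = 1 := by
          have : (2 * Real.pi * Complex.I * ((h : ℂ) * d / M))
              = Complex.I * ((2 * Real.pi * ((h : ℝ) * d / M) : ℝ) : ℂ) := by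
            push_cast; ring
          rw [this]
          exact Complex.norm_exp_I_mul_ofReal _
        rw [norm_mul, h3, mul_one, Complex.norm_real, Real.norm_eq_abs, sq_abs]
      rw [h4]
      apply mul_le_mul_of_nonneg_right _ hSB0
      apply mul_le_mul_of_nonneg_right _ (by positivity)
      linarith
    calc √(∑ q ∈ Ioc R (2 * R), psum q (fun χ => A h q χ ^ 2)) *
          √(∑ q ∈ Ioc R (2 * R), psum q (fun χ => B h q χ ^ 2))
        ≤ √((2 * CL) * ((K : ℝ) + (R : ℝ) ^ 2) * ((CD * w) ^ 2 * SA)) *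
          √((2 * CL) * ((M : ℝ) + (R : ℝ) ^ 2) * SB) := by
          apply mul_le_mul (Real.sqrt_le_sqrt hA) (Real.sqrt_le_sqrt hB) (Real.sqrt_nonneg _)
            (Real.sqrt_nonneg _)
      _ = √(((2 * CL) * (CD * w)) ^ 2 * ((((K : ℝ) + (R : ℝ) ^ 2) * ((M : ℝ) + (R : ℝ) ^ 2)) * (SA * SB))) := by
          rw [← Real.sqrt_mul (by positivity)]
          congr 1
          ring
      _ = ((2 * CL) * (CD * w)) * (√(((K : ℝ) + (R : ℝ) ^ 2) * ((M : ℝ) + (R : ℝ) ^ 2)) * √(SA * SB)) := by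
          rw [Real.sqrt_mul (by positivity), Real.sqrt_sq (by positivity),
            Real.sqrt_mul (by positivity)]
      _ = _ := by ring
  refine step1.trans ((Finset.sum_le_sum step2).trans ?_)
  rw [← Finset.mul_sum]
  calc (2 * CL * CD * √(((K : ℝ) + (R : ℝ) ^ 2) * ((M : ℝ) + (R : ℝ) ^ 2)) * √(SA * SB)) *
        ∑ h ∈ range M, (1 / (1 + ((min h (M - h) : ℕ) : ℝ)))
      ≤ (2 * CL * CD * √(((K : ℝ) + (R : ℝ) ^ 2) * ((M : ℝ) + (R : ℝ) ^ 2)) * √(SA * SB)) *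
        (2 * (1 + Real.log M)) :=
        mul_le_mul_of_nonneg_left (BILM.inv_sum_le M) (by positivity)
    _ = _ := by ring

end

end Pool.Agent.Lib.BVS
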