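import Pool.Agent.Lib.BVS.Spec
import Pool.Agent.Lib.SW.Main

/-!
# BVS: the Bombieri-Vinogradov theorem at a small level (module BVS)
-/

set_option autoImplicit false

namespace Pool.Agent.Lib.BVS

open Finset Filter Topology
open scoped Classical

namespace BVSM

theorem psum_nonneg (q : ℕ) (Φ : DirichletCharacter ℂ q → ℝ) (h : ∀ χ, 0 ≤ Φ χ) :
    0 ≤ psum q Φ := by
  unfold psum
  split_ifs with h0
  · exact le_rfl
  · exact Finset.sum_nonneg fun χ _ => h χ

theorem PP_nonneg (q N : ℕ) : 0 ≤ PP q N := psum_nonneg _ _ fun _ => norm_nonneg _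

/-- a primitive character modulo `q ≥ 2` is not principal -/
theorem prim_ne_one {q : ℕ} [NeZero q] (hq : 2 ≤ q) {χ : DirichletCharacter ℂ q}
    (h : χ.IsPrimitive) : χ ≠ 1 := by
  intro h1
  rw [h1, DirichletCharacter.isPrimitive_def, DirichletCharacter.conductor_one] at h
  omega

/-- the small moduli -/
theorem PP_le {q N : ℕ} (hq : 2 ≤ q) {T : ℝ} (hT : 0 ≤ T)
    (h : ∀ [NeZero q], ∀ χ : DirichletCharacter ℂ q, χ ≠ 1 →
      ‖∑ p ∈ (Icc 1 N).filter Nat.Prime, χ (p : ZMod q)‖ ≤ T) :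
    PP q N / q.totient ≤ T := by
  have : NeZero q := ⟨by omega⟩
  have hφ : (0 : ℝ) < q.totient := by
    exact_mod_cast Nat.totient_pos.2 (by omega)
  rw [div_le_iff₀ hφ]
  unfold PP
  rw [psum_eq]
  have hcard : ((univ : Finset (DirichletCharacter ℂ q)).filter (fun χ => χ.IsPrimitive)).card ≤
      q.totient := by
    refine (Finset.card_filter_le _ _).trans (le_of_eq ?_)
    rw [Finset.card_univ, ← Nat.card_eq_fintype_card]
    exact DirichletCharacter.card_eq_totient_of_hasEnoughRootsOfUnity ℂ q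
  calc ∑ χ ∈ (univ : Finset (DirichletCharacter ℂ q)).filter (fun χ => χ.IsPrimitive),
        ‖∑ p ∈ (Icc 1 N).filter Nat.Prime, χ (p : ZMod q)‖
      ≤ ∑ χ ∈ (univ : Finset (DirichletCharacter ℂ q)).filter (fun χ => χ.IsPrimitive), T :=
        Finset.sum_le_sum fun χ hχ => h χ (prim_ne_one hq (Finset.mem_filter.1 hχ).2)
    _ = (((univ : Finset (DirichletCharacter ℂ q)).filter (fun χ => χ.IsPrimitive)).card : ℝ) * T := by
        rw [Finset.sum_const, nsmul_eq_mul]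
    _ ≤ q.totient * T := mul_le_mul_of_nonneg_right (by exact_mod_cast hcard) hT
    _ = T * q.totient := mul_comm _ _

theorem split_sum {D Q : ℕ} (hD : 1 ≤ D) (hDQ : D ≤ Q) (f : ℕ → ℝ) :
    ∑ d ∈ Icc 2 Q, f d = ∑ d ∈ Icc 2 D, f d + ∑ d ∈ Ioc D Q, f d := by
  rw [← Finset.sum_union]
  · congr 1
    ext d
    simp only [Finset.mem_union, Finset.mem_Icc, Finset.mem_Ioc]
    omega
  · rw [Finset.disjoint_left]
    intro d h1 h2
    rw [Finset.mem_Icc] at h1
    rw [Finset.mem_Ioc] at h2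
    omega

/-- the final numerical estimate -/
theorem num {x y L C q n D : ℝ} {B : ℕ} (hy : y ^ 28 = x) (hy1 : 1 ≤ y) (hC : 0 < C)
    (hL : L = Real.log x) (hL2 : 2 ≤ L) (hLC : 2 * (8 + 1024 * C) ≤ L)
    (hLy : L ^ (B + 10) ≤ y) (hq1 : 1 ≤ q) (hqy : q ≤ y) (hn1 : 1 ≤ n) (hnx : n ≤ x)
    (hD : L ^ (B + 10) / 2 ≤ D) :
    2 * (1 + Real.log q) ^ 2 * (x / L ^ (B + 10) + C * n * (1 + Real.log n) ^ 6 / D) + 2 * q * q ≤
      x / L ^ B := by
  have hL0 : 0 < L := by linarith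
  have hx1 : 1 ≤ x := by rw [← hy]; exact one_le_pow₀ hy1
  have hyx : y ≤ x := by
    rw [← hy]
    exact le_self_pow₀ hy1 (by norm_num)
  have hlq : Real.log q ≤ L := by
    rw [hL]
    exact Real.log_le_log (by linarith) (by linarith)
  have hlq0 : 0 ≤ Real.log q := Real.log_nonneg hq1
  have hln : Real.log n ≤ L := by
    rw [hL]
    exact Real.log_le_log (by linarith) hnx
  have hln0 : 0 ≤ Real.log n := Real.log_nonneg hn1
  have h1 : (1 + Real.log q) ^ 2 ≤ (2 * L) ^ 2 := pow_le_pow_left₀ (by linarith) (by linarith) 2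
  have h2 : (1 + Real.log n) ^ 6 ≤ (2 * L) ^ 6 := pow_le_pow_left₀ (by linarith) (by linarith) 6
  have hP : 0 < L ^ (B + 10) := by positivity
  have hD0 : 0 < D := by linarith [half_pos hP]
  have h3 : C * n * (1 + Real.log n) ^ 6 / D ≤ C * x * (2 * L) ^ 6 / (L ^ (B + 10) / 2) := by
    apply div_le_div₀ (by positivity) _ (by positivity) hD
    apply mul_le_mul _ h2 (by positivity) (by positivity)
    exact mul_le_mul_of_nonneg_left hnx hC.le
  have h4 : x / L ^ (B + 10) + C * x * (2 * L) ^ 6 / (L ^ (B + 10) / 2) =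
      (x + 128 * C * x * L ^ 6) / L ^ (B + 10) := by
    field_simp
    ring
  have h5 : x + 128 * C * x * L ^ 6 ≤ (1 + 128 * C) * x * L ^ 6 := by
    have h6 : 1 ≤ L ^ 6 := one_le_pow₀ (by linarith)
    have h7 : x ≤ x * L ^ 6 := le_mul_of_one_le_right (by linarith) h6
    nlinarith
  have h6 : 2 * (1 + Real.log q) ^ 2 *
      (x / L ^ (B + 10) + C * n * (1 + Real.log n) ^ 6 / D) ≤ x / L ^ B / 2 := by
    calc 2 * (1 + Real.log q) ^ 2 * (x / L ^ (B + 10) + C * n * (1 + Real.log n) ^ 6 / D)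
        ≤ 2 * (2 * L) ^ 2 * (((1 + 128 * C) * x * L ^ 6) / L ^ (B + 10)) := by
          apply mul_le_mul _ _ (by positivity) (by positivity)
          · linarith
          · calc x / L ^ (B + 10) + C * n * (1 + Real.log n) ^ 6 / D
                ≤ x / L ^ (B + 10) + C * x * (2 * L) ^ 6 / (L ^ (B + 10) / 2) := by linarith
              _ = (x + 128 * C * x * L ^ 6) / L ^ (B + 10) := h4
              _ ≤ _ := div_le_div_of_nonneg_right h5 hP.le
      _ = (8 + 1024 * C) * x / (L ^ B * L ^ 2) := by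
          have e : L ^ (B + 10) = L ^ B * L ^ 10 := pow_add _ _ _
          rw [e]
          field_simp
          ring
      _ ≤ (L ^ 2 / 2) * x / (L ^ B * L ^ 2) := by
          apply div_le_div_of_nonneg_right _ (by positivity)
          apply mul_le_mul_of_nonneg_right _ (by linarith)
          nlinarith
      _ = x / L ^ B / 2 := by
          field_simp
  have h7 : 2 * q * q ≤ x / L ^ B / 2 := by
    rw [div_div, le_div_iff₀ (by positivity)]
    have h8 : 4 * L ^ B ≤ L ^ (B + 10) := by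
      rw [pow_add, mul_comm]
      apply mul_le_mul_of_nonneg_left _ (by positivity)
      calc (4 : ℝ) ≤ 2 ^ 10 := by norm_num
        _ ≤ L ^ 10 := pow_le_pow_left₀ (by norm_num) hL2 10
    calc 2 * q * q * (L ^ B * 2) = (q * q) * (4 * L ^ B) := by ring
      _ ≤ (y * y) * y := by
          apply mul_le_mul _ (h8.trans hLy) (by positivity) (by positivity)
          exact mul_le_mul hqy hqy (by linarith) (by linarith)
      _ = y ^ 3 := by ring
      _ ≤ y ^ 28 := pow_le_pow_right₀ hy1 (by norm_num)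
      _ = x := hy
  linarith

end BVSM

open BVSM in
theorem specBVS (hSPL : SpecSPL) (hTOT : SpecTOT) (hDYA : SpecDYA) : SpecBVS := by
  obtain ⟨C, hC, hdya⟩ := hDYA
  refine ⟨1 / 28, by norm_num, fun B => ?_⟩
  obtain ⟨x₁, hsw⟩ := Pool.Agent.Lib.SW.siegelWalfisz (B + 10) (2 * (B + 10))
  have hlog : ∀ᶠ x : ℝ in atTop, max 2 (2 * (8 + 1024 * C)) ≤ Real.log x :=
    Real.tendsto_log_atTop.eventually (eventually_ge_atTop _)
  have hpow : ∀ᶠ x : ℝ in atTop, Real.log x ^ (B + 10) ≤ x ^ (1 / 28 : ℝ) := by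
    have h := (isLittleO_log_rpow_rpow_atTop ((B + 10 : ℕ) : ℝ)
      (show (0 : ℝ) < 1 / 28 by norm_num)).def (c := 1) (by norm_num)
    filter_upwards [h, eventually_ge_atTop 1] with x hx hx1
    rw [Real.rpow_natCast, Real.norm_of_nonneg (pow_nonneg (Real.log_nonneg hx1) _),
      Real.norm_of_nonneg (Real.rpow_nonneg (by linarith) _), one_mul] at hx
    exact hx
  obtain ⟨x₂, hx₂⟩ := (hlog.and (hpow.and (eventually_ge_atTop 4))).exists_forall_of_atTop
  refine ⟨max x₁ x₂, fun x hx a ha => ?_⟩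
  have hx1 : x₁ ≤ x := (le_max_left _ _).trans hx
  obtain ⟨hl, hLy, hx4⟩ := hx₂ x ((le_max_right _ _).trans hx)
  obtain ⟨L, hL⟩ : ∃ L, L = Real.log x := ⟨_, rfl⟩
  obtain ⟨y, hy⟩ : ∃ y, y = x ^ (1 / 28 : ℝ) := ⟨_, rfl⟩
  rw [← hL] at hl
  rw [← hL, ← hy] at hLy
  have hL2 : 2 ≤ L := (le_max_left _ _).trans hl
  have hLC : 2 * (8 + 1024 * C) ≤ L := (le_max_right _ _).trans hl
  have hx0 : 0 ≤ x := by linarith
  have hy28 : y ^ 28 = x := by
    rw [hy, ← Real.rpow_natCast, ← Real.rpow_mul hx0]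
    norm_num
  have hy1 : 1 ≤ y := by
    rw [hy]
    exact Real.one_le_rpow (by linarith) (by norm_num)
  have hP1 : 1 ≤ L ^ (B + 10) := one_le_pow₀ (by linarith)
  have hP2 : 2 ≤ L ^ (B + 10) := by
    calc (2 : ℝ) ≤ 2 ^ (B + 10) := le_self_pow₀ (by norm_num) (by omega)
      _ ≤ L ^ (B + 10) := pow_le_pow_left₀ (by norm_num) hL2 _
  -- the parameters
  obtain ⟨Q, hQ⟩ : ∃ Q, Q = ⌊y⌋₊ := ⟨_, rfl⟩
  obtain ⟨N, hN⟩ : ∃ N, N = ⌊x⌋₊ := ⟨_, rfl⟩
  obtain ⟨D, hD⟩ : ∃ D, D = ⌊L ^ (B + 10)⌋₊ := ⟨_, rfl⟩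
  have hQ1 : 1 ≤ Q := by rw [hQ]; exact Nat.le_floor (by exact_mod_cast hy1)
  have hQy : (Q : ℝ) ≤ y := by rw [hQ]; exact Nat.floor_le (by linarith)
  have hNx : (N : ℝ) ≤ x := by rw [hN]; exact Nat.floor_le hx0
  have hNx' : x - 1 < N := by rw [hN]; exact Nat.sub_one_lt_floor x
  have hN1 : 1 ≤ N := by rw [hN]; exact Nat.le_floor (by push_cast; linarith)
  have hD1 : 1 ≤ D := by rw [hD]; exact Nat.le_floor (by exact_mod_cast hP1)
  have hDL : (D : ℝ) ≤ L ^ (B + 10) := by rw [hD]; exact Nat.floor_le (by linarith)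
  have hDL' : L ^ (B + 10) / 2 ≤ D := by
    have h : L ^ (B + 10) - 1 < D := by rw [hD]; exact Nat.sub_one_lt_floor _
    linarith
  have hDQ : D ≤ Q := by rw [hD, hQ]; exact Nat.floor_le_floor hLy
  have hQN : Q ^ 14 ≤ N := by
    have h1 : (Q : ℝ) ^ 14 ≤ y ^ 14 := pow_le_pow_left₀ (Nat.cast_nonneg _) hQy 14
    have h2 : y ^ 14 * y ^ 14 = x := by rw [← hy28]; ring
    have h3 : 1 ≤ y ^ 14 := one_le_pow₀ hy1
    have h4 : y ^ 14 ≤ x - 1 := by
      have h5 : 2 ≤ y ^ 14 := by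
        by_contra h6
        push Not at h6
        nlinarith
      nlinarith
    have h5 : (Q : ℝ) ^ 14 ≤ N := by linarith
    exact_mod_cast h5
  rw [← hy, ← hQ, ← hN, ← hL]
  -- reduction to primitive characters
  have h1 : ∑ q ∈ Icc 1 Q, |(((Icc 1 N).filter (fun p => p.Prime ∧ p ≡ a q [MOD q])).card : ℝ) -
      (((Icc 1 N).filter Nat.Prime).card : ℝ) / q.totient| ≤
      ∑ q ∈ Icc 1 Q, ((∑ d ∈ q.divisors.filter (fun d => d ≠ 1), PP d N) / q.totient + 2 * q) := by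
    refine Finset.sum_le_sum fun q hq => ?_
    exact hSPL q (a q) N (Finset.mem_Icc.1 hq).1 (ha q)
  have h2 : ∑ q ∈ Icc 1 Q, (2 * (q : ℝ)) ≤ 2 * Q * Q := by
    calc ∑ q ∈ Icc 1 Q, (2 * (q : ℝ)) ≤ ∑ q ∈ Icc 1 Q, (2 * (Q : ℝ)) := by
          refine Finset.sum_le_sum fun q hq => ?_
          have : (q : ℝ) ≤ Q := by exact_mod_cast (Finset.mem_Icc.1 hq).2
          linarith
      _ = 2 * Q * Q := by
          rw [Finset.sum_const, nsmul_eq_mul, Nat.card_Icc, Nat.add_sub_cancel]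
          ring
  have h3 := hTOT.two Q (fun d => PP d N) hQ1 fun d => PP_nonneg d N
  -- the small moduli
  have h4 : ∑ d ∈ Icc 2 D, PP d N / d.totient ≤ x / L ^ (B + 10) := by
    have h5 : ∀ d ∈ Icc 2 D, PP d N / d.totient ≤ x / L ^ (2 * (B + 10)) := by
      intro d hd
      rw [Finset.mem_Icc] at hd
      refine PP_le hd.1 (by positivity) ?_
      intro _ χ hχ
      have hdL : (d : ℝ) ≤ Real.log x ^ (B + 10) := by
        rw [← hL]
        exact le_trans (by exact_mod_cast hd.2) hDL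
      have h6 := (hsw x hx1 d hdL χ hχ).2.2
      rw [← hN, ← hL] at h6
      exact h6
    calc ∑ d ∈ Icc 2 D, PP d N / d.totient ≤ ∑ d ∈ Icc 2 D, x / L ^ (2 * (B + 10)) :=
          Finset.sum_le_sum h5
      _ = ((Icc 2 D).card : ℝ) * (x / L ^ (2 * (B + 10))) := by
          rw [Finset.sum_const, nsmul_eq_mul]
      _ ≤ L ^ (B + 10) * (x / L ^ (2 * (B + 10))) := by
          apply mul_le_mul_of_nonneg_right _ (by positivity)
          have : (((Icc 2 D).card : ℕ) : ℝ) ≤ D := by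
            rw [Nat.card_Icc]
            exact_mod_cast (by omega : D + 1 - 2 ≤ D)
          linarith
      _ = x / L ^ (B + 10) := by
          rw [two_mul, pow_add L (B + 10) (B + 10)]
          field_simp
  -- the large moduli
  have h5 := hdya D Q N hD1 hDQ hQN
  have h6 := split_sum hD1 hDQ fun d => PP d N / d.totient
  have hlQ : 0 ≤ Real.log Q := Real.log_natCast_nonneg Q
  have h7 : ∑ d ∈ Icc 2 Q, PP d N / d.totient ≤
      x / L ^ (B + 10) + C * N * (1 + Real.log N) ^ 6 / D := by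
    rw [h6]
    exact add_le_add h4 h5
  have h8 := num (B := B) hy28 hy1 hC hL hL2 hLC hLy (q := Q) (by exact_mod_cast hQ1) hQy
    (n := N) (by exact_mod_cast hN1) hNx hDL'
  refine h1.trans ?_
  rw [Finset.sum_add_distrib]
  refine le_trans (add_le_add (h3.trans ?_) h2) h8
  exact mul_le_mul_of_nonneg_left h7 (by positivity)

end Pool.Agent.Lib.BVS
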