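import Pool.Agent.Lib.BVS.Spec

/-!
# Module DYA: the large moduli
-/

set_option autoImplicit false

namespace Pool.Agent.Lib.BVS

open Finset Filter Topology
open scoped Classical

namespace DYAM

theorem psum_nonneg (q : ℕ) (Φ : DirichletCharacter ℂ q → ℝ) (h : ∀ χ, 0 ≤ Φ χ) : 0 ≤ psum q Φ := by
  unfold psum
  split_ifs with h0
  · exact le_rfl
  · exact sum_nonneg fun χ _ => h χ

theorem PP_nonneg (q N : ℕ) : 0 ≤ PP q N := psum_nonneg q _ fun _ => norm_nonneg _

end DYAM

open DYAM in
theorem specDYA (hPIX : SpecPIX) (hTOT : SpecTOT) : SpecDYA := by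
  obtain ⟨C, hC, hpix⟩ := hPIX
  refine ⟨8 * C, by positivity, ?_⟩
  intro D Q N hD hDQ hQN
  have hN1 : 1 ≤ N := le_trans (Nat.one_le_pow _ _ (by omega)) hQN
  have hlN : 0 ≤ Real.log N := Real.log_nonneg (by exact_mod_cast hN1)
  set K : ℝ := 4 * C * N * (1 + Real.log N) ^ 6 with hK
  have hK0 : 0 ≤ K := by positivity
  -- one block
  have block : ∀ E : ℕ, 1 ≤ E → E ≤ Q →
      ∑ d ∈ Ioc E (2 * E), PP d N / d.totient ≤ K / E := by
    intro E hE hEQ
    have hE14 : E ^ 14 ≤ N := (Nat.pow_le_pow_left hEQ 14).trans hQN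
    have hEN : E ≤ N := (Nat.le_self_pow (by norm_num) E).trans hE14
    have hE0 : (0 : ℝ) < E := by exact_mod_cast hE
    have h1 : ∀ d ∈ Ioc E (2 * E), PP d N / d.totient ≤ PP d N * (4 * (1 + Real.log N) / E) := by
      intro d hd
      rw [mem_Ioc] at hd
      have hd1 : 1 ≤ d := by omega
      have hd0 : (0 : ℝ) < d := by exact_mod_cast hd1
      have h2 := hTOT.one d hd1
      have h3 : Real.log d ≤ 1 + Real.log N := by
        have h4 : Real.log d ≤ Real.log (2 * N) := by
          apply Real.log_le_log hd0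
          have : d ≤ 2 * N := by omega
          exact_mod_cast this
        rw [Real.log_mul (by norm_num) (by positivity)] at h4
        linarith [Real.log_two_lt_d9]
      have h5 : 2 * (1 + Real.log d) / d ≤ 4 * (1 + Real.log N) / E := by
        apply div_le_div₀ (by positivity) (by linarith) hE0
        exact_mod_cast hd.1.le
      rw [div_eq_mul_one_div]
      exact mul_le_mul_of_nonneg_left (h2.trans h5) (PP_nonneg _ _)
    calc ∑ d ∈ Ioc E (2 * E), PP d N / d.totient
        ≤ ∑ d ∈ Ioc E (2 * E), PP d N * (4 * (1 + Real.log N) / E) := sum_le_sum h1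
      _ = (∑ d ∈ Ioc E (2 * E), PP d N) * (4 * (1 + Real.log N) / E) := by rw [sum_mul]
      _ ≤ (C * N * (1 + Real.log N) ^ 5) * (4 * (1 + Real.log N) / E) :=
          mul_le_mul_of_nonneg_right (hpix E N hE hE14) (by positivity)
      _ = K / E := by rw [hK]; ring
  have main : ∀ n E : ℕ, 1 ≤ E → E ≤ Q → Q - E = n →
      ∑ d ∈ Ioc E Q, PP d N / d.totient ≤ 2 * K / E := by
    intro n
    induction n using Nat.strong_induction_on with
    | _ n ih =>
      intro E hE hEQ hn
      have hE0 : (0 : ℝ) < E := by exact_mod_cast hE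
      have hb := block E hE hEQ
      by_cases h2 : 2 * E ≤ Q
      · have hu : Ioc E Q = Ioc E (2 * E) ∪ Ioc (2 * E) Q :=
          (Ioc_union_Ioc_eq_Ioc (by omega) h2).symm
        have hdis : Disjoint (Ioc E (2 * E)) (Ioc (2 * E) Q) := by
          rw [disjoint_left]
          intro a ha hb
          rw [mem_Ioc] at ha hb
          omega
        rw [hu, sum_union hdis]
        have h3 := ih (Q - 2 * E) (by omega) (2 * E) (by omega) h2 rfl
        push_cast at h3
        have h4 : 2 * K / (2 * (E : ℝ)) = K / E := by field_simp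
        rw [h4] at h3
        have h5 : 2 * K / (E : ℝ) = K / E + K / E := by ring
        rw [h5]
        exact add_le_add hb h3
      · have h3 : ∑ d ∈ Ioc E Q, PP d N / d.totient ≤ ∑ d ∈ Ioc E (2 * E), PP d N / d.totient := by
          apply sum_le_sum_of_subset_of_nonneg
          · intro d hd
            rw [mem_Ioc] at hd ⊢
            omega
          · intro d _ _
            exact div_nonneg (PP_nonneg _ _) (Nat.cast_nonneg _)
        have h5 : 2 * K / (E : ℝ) = K / E + K / E := by ring
        have h6 : 0 ≤ K / (E : ℝ) := by positivity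
        linarith
  calc ∑ d ∈ Ioc D Q, PP d N / d.totient ≤ 2 * K / D := main _ D hD hDQ rfl
    _ = 8 * C * N * (1 + Real.log N) ^ 6 / D := by rw [hK]; ring

end Pool.Agent.Lib.BVS
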