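import Pool.Agent.Lib.BVS.Spec
import Pool.Agent.Lib.MP_391708_nt.QPA.LS

/-!
# LSP: the large sieve with complex coefficients
-/

set_option autoImplicit false

namespace Pool.Agent.Lib.BVS

open Finset Filter Topology
open scoped Classical
open Pool.Agent.Lib.MP391708.QPA (csum specLS)

noncomputable section

namespace LSPM

lemma csum_nonneg (r : ℕ) (b : ℕ → ℝ) (X : ℕ) : 0 ≤ csum r b X :=
  Finset.sum_nonneg fun _ _ => by positivity

lemma psum_succ (r : ℕ) (b : ℕ → ℝ) (N : ℕ) :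
    psum (r + 1) (fun χ => ‖∑ n ∈ Icc 1 N, (b n : ℂ) * χ (n : ZMod (r + 1))‖ ^ 2) = csum r b N := by
  rw [psum_eq (r + 1)]
  rfl

lemma sum_shift (R : ℕ) (f : ℕ → ℝ) :
    ∑ q ∈ Ioc R (2 * R), f q = ∑ r ∈ Ico R (2 * R), f (r + 1) := by
  refine Finset.sum_nbij' (fun q => q - 1) (fun r => r + 1) ?_ ?_ ?_ ?_ ?_
  · intro q hq
    rw [Finset.mem_Ioc] at hq
    rw [Finset.mem_Ico]; omega
  · intro r hr
    rw [Finset.mem_Ico] at hr
    rw [Finset.mem_Ioc]; omega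
  · intro q hq
    rw [Finset.mem_Ioc] at hq
    omega
  · intro r _
    simp
  · intro q hq
    rw [Finset.mem_Ioc] at hq
    rw [Nat.sub_add_cancel (by omega)]

lemma real_case {C : ℝ} (hC : 0 < C) (h : ∀ (R X : ℕ) (b : ℕ → ℝ), 1 ≤ R → 1 ≤ X →
    ∑ r ∈ range R, ((r : ℝ) + 1) / ((r + 1).totient : ℝ) * csum r b X
      ≤ C * ((X : ℝ) + (R : ℝ) ^ 2) * ∑ u ∈ Icc 1 X, (b u) ^ 2)
    (R N : ℕ) (b : ℕ → ℝ) (hR : 1 ≤ R) (hN : 1 ≤ N) :
    ∑ q ∈ Ioc R (2 * R), psum q (fun χ => ‖∑ n ∈ Icc 1 N, (b n : ℂ) * χ (n : ZMod q)‖ ^ 2)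
      ≤ 4 * C * ((N : ℝ) + (R : ℝ) ^ 2) * ∑ n ∈ Icc 1 N, (b n) ^ 2 := by
  rw [sum_shift]
  have h1 := h (2 * R) N b (by omega) hN
  have h2 : ∑ r ∈ Ico R (2 * R),
      psum (r + 1) (fun χ => ‖∑ n ∈ Icc 1 N, (b n : ℂ) * χ (n : ZMod (r + 1))‖ ^ 2)
      ≤ ∑ r ∈ range (2 * R), ((r : ℝ) + 1) / ((r + 1).totient : ℝ) * csum r b N := by
    calc _ ≤ ∑ r ∈ Ico R (2 * R), ((r : ℝ) + 1) / ((r + 1).totient : ℝ) * csum r b N := by
          refine Finset.sum_le_sum fun r _ => ?_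
          rw [psum_succ]
          have h3 : (1 : ℝ) ≤ ((r : ℝ) + 1) / ((r + 1).totient : ℝ) := by
            have h4 : (0 : ℝ) < ((r + 1).totient : ℝ) := by
              exact_mod_cast Nat.totient_pos.2 (Nat.succ_pos r)
            rw [one_le_div h4]
            exact_mod_cast Nat.totient_le (r + 1)
          calc csum r b N = 1 * csum r b N := (one_mul _).symm
            _ ≤ _ := mul_le_mul_of_nonneg_right h3 (csum_nonneg r b N)
      _ ≤ _ := by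
          apply Finset.sum_le_sum_of_subset_of_nonneg
          · intro r hr
            rw [Finset.mem_Ico] at hr
            exact Finset.mem_range.2 hr.2
          · intro r _ _
            exact mul_nonneg (by positivity) (csum_nonneg r b N)
  refine h2.trans (h1.trans ?_)
  have h5 : (0 : ℝ) ≤ ∑ n ∈ Icc 1 N, (b n) ^ 2 := Finset.sum_nonneg fun _ _ => sq_nonneg _
  apply mul_le_mul_of_nonneg_right _ h5
  have h6 : ((N : ℝ) + ((2 * R : ℕ) : ℝ) ^ 2) ≤ 4 * ((N : ℝ) + (R : ℝ) ^ 2) := by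
    push_cast
    have : (0 : ℝ) ≤ N := Nat.cast_nonneg N
    nlinarith
  calc C * ((N : ℝ) + ((2 * R : ℕ) : ℝ) ^ 2) ≤ C * (4 * ((N : ℝ) + (R : ℝ) ^ 2)) :=
        mul_le_mul_of_nonneg_left h6 hC.le
    _ = 4 * C * ((N : ℝ) + (R : ℝ) ^ 2) := by ring

lemma split_le {q : ℕ} (N : ℕ) (a : ℕ → ℂ) (χ : DirichletCharacter ℂ q) :
    ‖∑ n ∈ Icc 1 N, a n * χ (n : ZMod q)‖ ^ 2 ≤
      2 * ‖∑ n ∈ Icc 1 N, ((a n).re : ℂ) * χ (n : ZMod q)‖ ^ 2 +
        2 * ‖∑ n ∈ Icc 1 N, ((a n).im : ℂ) * χ (n : ZMod q)‖ ^ 2 := by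
  set u := ∑ n ∈ Icc 1 N, ((a n).re : ℂ) * χ (n : ZMod q) with hu
  set v := ∑ n ∈ Icc 1 N, ((a n).im : ℂ) * χ (n : ZMod q) with hv
  have h1 : ∑ n ∈ Icc 1 N, a n * χ (n : ZMod q) = u + Complex.I * v := by
    rw [hu, hv, Finset.mul_sum, ← Finset.sum_add_distrib]
    refine Finset.sum_congr rfl fun n _ => ?_
    have h2 : a n = ((a n).re : ℂ) + ((a n).im : ℂ) * Complex.I := (Complex.re_add_im _).symm
    calc a n * χ (n : ZMod q) = (((a n).re : ℂ) + ((a n).im : ℂ) * Complex.I) * χ (n : ZMod q) := by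
          rw [← h2]
      _ = _ := by ring
  rw [h1]
  have h3 : ‖u + Complex.I * v‖ ≤ ‖u‖ + ‖v‖ := by
    refine (norm_add_le _ _).trans ?_
    rw [norm_mul, Complex.norm_I, one_mul]
  have h4 : 0 ≤ ‖u + Complex.I * v‖ := norm_nonneg _
  nlinarith [sq_nonneg (‖u‖ - ‖v‖), norm_nonneg u, norm_nonneg v]

lemma psum_mono {q : ℕ} {Φ Ψ : DirichletCharacter ℂ q → ℝ} (h : ∀ χ, Φ χ ≤ Ψ χ) :
    psum q Φ ≤ psum q Ψ := by
  unfold psum
  split_ifs with hq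
  · exact le_refl _
  · exact Finset.sum_le_sum fun χ _ => h χ

lemma psum_lin {q : ℕ} (Φ Ψ : DirichletCharacter ℂ q → ℝ) :
    psum q (fun χ => 2 * Φ χ + 2 * Ψ χ) = 2 * psum q Φ + 2 * psum q Ψ := by
  unfold psum
  split_ifs with hq
  · norm_num
  · rw [Finset.sum_add_distrib, ← Finset.mul_sum, ← Finset.mul_sum]

end LSPM

open LSPM in
theorem specLSP : SpecLSP := by
  obtain ⟨C, hC, h⟩ := specLS
  refine ⟨8 * C, by positivity, ?_⟩
  intro R N a hR hN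
  have h1 := real_case hC h R N (fun n => (a n).re) hR hN
  have h2 := real_case hC h R N (fun n => (a n).im) hR hN
  have h3 : ∑ q ∈ Ioc R (2 * R), psum q (fun χ => ‖∑ n ∈ Icc 1 N, a n * χ (n : ZMod q)‖ ^ 2)
      ≤ 2 * (∑ q ∈ Ioc R (2 * R),
          psum q (fun χ => ‖∑ n ∈ Icc 1 N, ((a n).re : ℂ) * χ (n : ZMod q)‖ ^ 2)) +
        2 * (∑ q ∈ Ioc R (2 * R),
          psum q (fun χ => ‖∑ n ∈ Icc 1 N, ((a n).im : ℂ) * χ (n : ZMod q)‖ ^ 2)) := by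
    rw [Finset.mul_sum, Finset.mul_sum, ← Finset.sum_add_distrib]
    refine Finset.sum_le_sum fun q _ => ?_
    rw [← psum_lin]
    exact psum_mono fun χ => split_le N a χ
  have h4 : ∑ n ∈ Icc 1 N, ‖a n‖ ^ 2 =
      ∑ n ∈ Icc 1 N, ((a n).re) ^ 2 + ∑ n ∈ Icc 1 N, ((a n).im) ^ 2 := by
    rw [← Finset.sum_add_distrib]
    refine Finset.sum_congr rfl fun n _ => ?_
    rw [← Complex.normSq_eq_norm_sq, Complex.normSq_apply]; ring
  rw [h4]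
  calc _ ≤ _ := h3
    _ ≤ 2 * (4 * C * ((N : ℝ) + (R : ℝ) ^ 2) * ∑ n ∈ Icc 1 N, ((a n).re) ^ 2) +
        2 * (4 * C * ((N : ℝ) + (R : ℝ) ^ 2) * ∑ n ∈ Icc 1 N, ((a n).im) ^ 2) := by linarith
    _ = _ := by ring

end

end Pool.Agent.Lib.BVS
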