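import Pool.Agent.Lib.BVS.Spec
import Pool.Agent.Lib.MP_d1f1b5_nt.TB.VAU

/-!
# BVS, module MVP: the mean value of `psiX` over the primitive characters of the moduli in `(R, 2R]`
-/

set_option autoImplicit false

namespace Pool.Agent.Lib.BVS.MVPM

open Finset
open scoped Classical
open Pool.Agent.Lib.MP_d1f1b5_nt.TB (v1 v2 v3 psiX)

theorem ne_one_of_primitive {q : ℕ} (hq : 1 < q) {χ : DirichletCharacter ℂ q} (h : χ.IsPrimitive) :
    χ ≠ 1 := by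
  rintro rfl
  have : NeZero q := ⟨by omega⟩
  rw [DirichletCharacter.isPrimitive_def, DirichletCharacter.conductor_one] at h
  omega

theorem psum_le {q : ℕ} (hq : 1 < q) {Φ Ψ : DirichletCharacter ℂ q → ℝ}
    (h : ∀ χ, χ ≠ 1 → Φ χ ≤ Ψ χ) : psum q Φ ≤ psum q Ψ := by
  haveI : NeZero q := ⟨by omega⟩
  rw [psum_eq, psum_eq]
  exact Finset.sum_le_sum fun χ hχ => h χ (ne_one_of_primitive hq (Finset.mem_filter.1 hχ).2)

theorem psum_add {q : ℕ} (Φ Ψ : DirichletCharacter ℂ q → ℝ) :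
    psum q (fun χ => Φ χ + Ψ χ) = psum q Φ + psum q Ψ := by
  by_cases hq : q = 0
  · unfold psum
    rw [dif_pos hq, dif_pos hq, dif_pos hq, add_zero]
  · haveI : NeZero q := ⟨hq⟩
    rw [psum_eq, psum_eq, psum_eq, Finset.sum_add_distrib]

theorem psum_const_le {q : ℕ} (hq : 1 < q) {T : ℝ} (hT : 0 ≤ T) :
    psum q (fun _ => T) ≤ q * T := by
  haveI : NeZero q := ⟨by omega⟩
  rw [psum_eq, Finset.sum_const, nsmul_eq_mul]
  refine mul_le_mul_of_nonneg_right ?_ hT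
  have h1 : ((univ : Finset (DirichletCharacter ℂ q)).filter (fun χ => χ.IsPrimitive)).card ≤
      (univ : Finset (DirichletCharacter ℂ q)).card := Finset.card_filter_le _ _
  have h2 : (univ : Finset (DirichletCharacter ℂ q)).card = q.totient := by
    rw [Finset.card_univ, ← Nat.card_eq_fintype_card]
    exact DirichletCharacter.card_eq_totient_of_hasEnoughRootsOfUnity ℂ q
  have h3 : q.totient ≤ q := Nat.totient_le q
  exact_mod_cast h1.trans (h2.le.trans h3)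

theorem mem_R {R q : ℕ} (hR : 1 ≤ R) (h : q ∈ Ioc R (2 * R)) : 1 < q ∧ R < q ∧ q ≤ 2 * R := by
  rw [Finset.mem_Ioc] at h
  omega

theorem card_R (R : ℕ) : (Ioc R (2 * R)).card ≤ R := by
  rw [Nat.card_Ioc]
  omega

/-- The pointwise bound from Vaughan's identity and the type I bound. -/
theorem psiX_le (hTYA : SpecTYAP) {q U Y₁ Y₂ : ℕ} (hq : 1 < q)
    {χ : DirichletCharacter ℂ q} (hχ : χ ≠ 1) (hU : 1 ≤ U) (hUY : U ≤ Y₁) (hY : Y₁ ≤ Y₂) :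
    ‖psiX χ Y₁ Y₂‖ ≤ 3 * q * U * U * (1 + Real.log Y₂ + Real.log (U * U)) +
      ‖∑ n ∈ Ioc Y₁ Y₂, ((v3 U U n : ℝ) : ℂ) * χ (n : ZMod q)‖ := by
  haveI : NeZero q := ⟨by omega⟩
  have e1 : psiX χ Y₁ Y₂ = ∑ n ∈ Ioc Y₁ Y₂, ((v1 U n - v2 U U n : ℝ) : ℂ) * χ (n : ZMod q) +
      ∑ n ∈ Ioc Y₁ Y₂, ((v3 U U n : ℝ) : ℂ) * χ (n : ZMod q) := by
    unfold psiX
    rw [← Finset.sum_add_distrib]
    refine Finset.sum_congr rfl fun n hn => ?_
    have hn' : U < n := lt_of_le_of_lt hUY (Finset.mem_Ioc.1 hn).1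
    rw [Pool.Agent.Lib.MP_d1f1b5_nt.TB.specVAU U U n hU hU hn']
    push_cast
    ring
  rw [e1]
  refine (norm_add_le _ _).trans ?_
  exact add_le_add (hTYA q U U Y₁ Y₂ χ hχ hU hU hY (by omega)) le_rfl

end Pool.Agent.Lib.BVS.MVPM

namespace Pool.Agent.Lib.BVS

open Finset MVPM
open scoped Classical
open Pool.Agent.Lib.MP_d1f1b5_nt.TB (v1 v2 v3 psiX)

theorem specMVP (hTYA : SpecTYAP) (hTYB : SpecTYBP) : SpecMVP := by
  obtain ⟨C, hC, hB⟩ := hTYB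
  refine ⟨36 + 729 * C, by positivity, ?_⟩
  intro R Y₁ Y₂ hR hRY hY hY3
  have hY1 : 1 ≤ Y₁ := le_trans (Nat.one_le_pow _ _ hR) hRY
  have hL0 : 0 ≤ Real.log (Y₁ : ℝ) := Real.log_nonneg (by exact_mod_cast hY1)
  have hY1r : (1 : ℝ) ≤ (Y₁ : ℝ) := by exact_mod_cast hY1
  -- the trivial case
  by_cases hY2 : Y₂ < 2
  · have he : Ioc Y₁ Y₂ = ∅ := by
      apply Finset.Ioc_eq_empty
      omega
    have h0 : ∀ q ∈ Ioc R (2 * R), psum q (fun χ => ‖psiX χ Y₁ Y₂‖) ≤ 0 := by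
      intro q hq
      have hq0 := (mem_R hR hq).1
      refine (psum_le hq0 (Ψ := fun _ => 0) fun χ _ => ?_).trans ?_
      · unfold psiX
        rw [he, Finset.sum_empty, norm_zero]
      · exact (psum_const_le hq0 le_rfl).trans (by rw [mul_zero])
    exact (Finset.sum_nonpos h0).trans (by positivity)
  push Not at hY2
  -- the parameter `U`
  obtain ⟨U, hU⟩ : ∃ U : ℕ, U = Nat.sqrt (Nat.sqrt Y₁) := ⟨_, rfl⟩
  have hUU : U * U ≤ Nat.sqrt Y₁ := by rw [hU]; exact Nat.sqrt_le _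
  have hU4 : (U * U) * (U * U) ≤ Y₁ := (Nat.mul_le_mul hUU hUU).trans (Nat.sqrt_le _)
  have hR2 : R ^ 2 ≤ U := by
    rw [hU, Nat.le_sqrt, Nat.le_sqrt]
    refine le_trans ?_ hRY
    calc R ^ 2 * R ^ 2 * (R ^ 2 * R ^ 2) = R ^ 8 := by ring
      _ ≤ R ^ 10 := Nat.pow_le_pow_right hR (by norm_num)
  have hU1 : 1 ≤ U := le_trans (Nat.one_le_pow _ _ hR) hR2
  have hUUY : U * U ≤ Y₁ := by nlinarith [Nat.mul_le_mul hU1 hU1]
  have hUY : U ≤ Y₁ := by nlinarith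
  -- logarithms
  set L : ℝ := 1 + Real.log Y₁ with hL
  have hL1 : 1 ≤ L := by linarith
  have hlog3 : Real.log 3 ≤ 2 := by
    have := Real.log_le_sub_one_of_pos (show (0 : ℝ) < 3 by norm_num)
    linarith
  have hY2r : (Y₂ : ℝ) ≤ 3 * Y₁ := by exact_mod_cast hY3
  have hlogY2 : Real.log Y₂ ≤ 2 + Real.log Y₁ := by
    have h1 : Real.log Y₂ ≤ Real.log (3 * Y₁) :=
      Real.log_le_log (by exact_mod_cast (by omega : 0 < Y₂)) hY2r
    rw [Real.log_mul (by norm_num) (by positivity)] at h1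
    linarith
  have hlogU : Real.log ((U : ℝ) * U) ≤ Real.log Y₁ := by
    refine Real.log_le_log ?_ (by exact_mod_cast hUUY)
    have : (0 : ℝ) < U := by exact_mod_cast hU1
    positivity
  have hlogU0 : 0 ≤ Real.log ((U : ℝ) * U) := by
    apply Real.log_nonneg
    exact_mod_cast Nat.mul_le_mul hU1 hU1
  have hlogY20 : 0 ≤ Real.log (Y₂ : ℝ) := Real.log_nonneg (by exact_mod_cast (by omega : 1 ≤ Y₂))
  have hL5 : L ≤ L ^ 5 := le_self_pow₀ hL1 (by norm_num)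
  -- the type I part
  obtain ⟨T, hT⟩ : ∃ T : ℕ → ℝ, T = fun q : ℕ =>
    3 * (q : ℝ) * U * U * (1 + Real.log Y₂ + Real.log (U * U)) := ⟨_, rfl⟩
  have hT0 : ∀ q, 0 ≤ T q := fun q => by rw [hT]; positivity
  have hmain : ∀ q ∈ Ioc R (2 * R), psum q (fun χ => ‖psiX χ Y₁ Y₂‖) ≤
      q * T q + psum q (fun χ => ‖∑ n ∈ Ioc Y₁ Y₂, ((v3 U U n : ℝ) : ℂ) * χ (n : ZMod q)‖) := by
    intro q hq
    have hp := (mem_R hR hq)
    have h1 := psum_le hp.1 (Φ := fun χ => ‖psiX χ Y₁ Y₂‖)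
      (Ψ := fun χ => T q + ‖∑ n ∈ Ioc Y₁ Y₂, ((v3 U U n : ℝ) : ℂ) * χ (n : ZMod q)‖)
      (fun χ hχ => by
        have := psiX_le hTYA hp.1 hχ hU1 hUY hY
        rw [hT]
        exact this)
    rw [psum_add (fun _ => T q)] at h1
    exact h1.trans (add_le_add (psum_const_le hp.1 (hT0 q)) le_rfl)
  have hTq : ∀ q ∈ Ioc R (2 * R), (q : ℝ) * T q ≤ 36 * R ^ 2 * U ^ 2 * L := by
    intro q hq
    have hq2 : (q : ℝ) ≤ 2 * R := by exact_mod_cast (mem_R hR hq).2.2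
    have hq0 : (0 : ℝ) ≤ q := Nat.cast_nonneg q
    have h3 : 1 + Real.log Y₂ + Real.log ((U : ℝ) * U) ≤ 3 * L := by
      rw [hL]
      linarith
    rw [hT]
    calc (q : ℝ) * (3 * (q : ℝ) * U * U * (1 + Real.log Y₂ + Real.log ((U : ℝ) * U)))
        = 3 * (q * q) * (U : ℝ) ^ 2 * (1 + Real.log Y₂ + Real.log ((U : ℝ) * U)) := by ring
      _ ≤ 3 * ((2 * R) * (2 * R)) * (U : ℝ) ^ 2 * (3 * L) := by
          have h4 : (q : ℝ) * q ≤ (2 * R) * (2 * R) := mul_le_mul hq2 hq2 hq0 (by positivity)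
          exact mul_le_mul (mul_le_mul_of_nonneg_right (by linarith) (by positivity)) h3
            (by positivity) (by positivity)
      _ = 36 * R ^ 2 * U ^ 2 * L := by ring
  have hI : ∑ q ∈ Ioc R (2 * R), (q : ℝ) * T q ≤ 36 * Y₁ * L := by
    calc ∑ q ∈ Ioc R (2 * R), (q : ℝ) * T q ≤ ∑ q ∈ Ioc R (2 * R), 36 * (R : ℝ) ^ 2 * U ^ 2 * L :=
          Finset.sum_le_sum hTq
      _ = (Ioc R (2 * R)).card * (36 * (R : ℝ) ^ 2 * U ^ 2 * L) := by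
          rw [Finset.sum_const, nsmul_eq_mul]
      _ ≤ R * (36 * (R : ℝ) ^ 2 * U ^ 2 * L) :=
          mul_le_mul_of_nonneg_right (by exact_mod_cast card_R R) (by positivity)
      _ = 36 * ((R : ℝ) ^ 3 * U ^ 2) * L := by ring
      _ ≤ 36 * Y₁ * L := by
          have h5 : R ^ 3 * U ^ 2 ≤ Y₁ := by
            calc R ^ 3 * U ^ 2 ≤ R ^ 4 * U ^ 2 :=
                  Nat.mul_le_mul (Nat.pow_le_pow_right hR (by norm_num)) le_rfl
              _ = (R ^ 2 * R ^ 2) * U ^ 2 := by ring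
              _ ≤ (U * U) * U ^ 2 := Nat.mul_le_mul (Nat.mul_le_mul hR2 hR2) le_rfl
              _ = (U * U) * (U * U) := by ring
              _ ≤ Y₁ := hU4
          have h6 : (R : ℝ) ^ 3 * U ^ 2 ≤ Y₁ := by exact_mod_cast h5
          exact mul_le_mul_of_nonneg_right (by linarith) (by linarith)
  -- the type II part
  have hII := hB R U U Y₁ Y₂ hR hR2 hR2 hY hY2 (hUUY.trans hY)
  have hII2 : C * (Y₂ : ℝ) * (1 + Real.log Y₂) ^ 5 ≤ 729 * C * Y₁ * L ^ 5 := by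
    have h7 : 1 + Real.log Y₂ ≤ 3 * L := by rw [hL]; linarith
    have h8 : (1 + Real.log Y₂) ^ 5 ≤ (3 * L) ^ 5 := pow_le_pow_left₀ (by positivity) h7 5
    calc C * (Y₂ : ℝ) * (1 + Real.log Y₂) ^ 5 ≤ C * (3 * Y₁) * (3 * L) ^ 5 :=
          mul_le_mul (mul_le_mul_of_nonneg_left hY2r hC.le) h8 (by positivity) (by positivity)
      _ = 729 * C * Y₁ * L ^ 5 := by ring
  calc ∑ q ∈ Ioc R (2 * R), psum q (fun χ => ‖psiX χ Y₁ Y₂‖)
      ≤ ∑ q ∈ Ioc R (2 * R), (q * T q +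
        psum q (fun χ => ‖∑ n ∈ Ioc Y₁ Y₂, ((v3 U U n : ℝ) : ℂ) * χ (n : ZMod q)‖)) :=
        Finset.sum_le_sum hmain
    _ = ∑ q ∈ Ioc R (2 * R), (q : ℝ) * T q +
        ∑ q ∈ Ioc R (2 * R), psum q (fun χ => ‖∑ n ∈ Ioc Y₁ Y₂, ((v3 U U n : ℝ) : ℂ) * χ (n : ZMod q)‖) :=
        Finset.sum_add_distrib
    _ ≤ 36 * Y₁ * L + 729 * C * Y₁ * L ^ 5 := add_le_add hI (hII.trans hII2)
    _ ≤ 36 * Y₁ * L ^ 5 + 729 * C * Y₁ * L ^ 5 := by
        have : 36 * (Y₁ : ℝ) * L ≤ 36 * Y₁ * L ^ 5 := mul_le_mul_of_nonneg_left hL5 (by positivity)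
        linarith
    _ = (36 + 729 * C) * Y₁ * L ^ 5 := by ring

end Pool.Agent.Lib.BVS
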