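import Pool.Agent.Lib.BVS.Spec

/-!
# Bombieri-Vinogradov at a small level, module MVX: the interval `[1, N]`
-/

set_option autoImplicit false

namespace Pool.Agent.Lib.BVS

open Finset
open scoped Classical
open Pool.Agent.Lib.MP_d1f1b5_nt.TB (psiX)

noncomputable section

namespace MVXM

theorem psum_le_add (q : ℕ) (Φ Φ₁ Φ₂ : DirichletCharacter ℂ q → ℝ)
    (h : ∀ χ, Φ χ ≤ Φ₁ χ + Φ₂ χ) : psum q Φ ≤ psum q Φ₁ + psum q Φ₂ := by
  by_cases hq : q = 0
  · simp [psum, hq]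
  · have : NeZero q := ⟨hq⟩
    rw [psum_eq, psum_eq, psum_eq, ← sum_add_distrib]
    exact sum_le_sum fun χ _ => h χ

theorem psum_le_const (q : ℕ) (Φ : DirichletCharacter ℂ q → ℝ) (B : ℝ) (hB : 0 ≤ B)
    (h : ∀ χ, Φ χ ≤ B) : psum q Φ ≤ q * B := by
  by_cases hq : q = 0
  · simp [psum, hq]
  · have : NeZero q := ⟨hq⟩
    rw [psum_eq]
    refine (sum_le_card_nsmul _ _ B fun χ _ => h χ).trans ?_
    rw [nsmul_eq_mul]
    refine mul_le_mul_of_nonneg_right ?_ hB
    have h1 : ((univ : Finset (DirichletCharacter ℂ q)).filter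
        (fun χ => χ.IsPrimitive)).card ≤ q := by
      refine (card_filter_le _ _).trans ?_
      rw [card_univ, ← Nat.card_eq_fintype_card,
        DirichletCharacter.card_eq_totient_of_hasEnoughRootsOfUnity]
      exact Nat.totient_le q
    exact_mod_cast h1

/-- the sum -/
def S (R a b : ℕ) : ℝ := ∑ q ∈ Ioc R (2 * R), psum q (fun χ => ‖psiX χ a b‖)

theorem split (R a b c : ℕ) (h1 : a ≤ b) (h2 : b ≤ c) : S R a c ≤ S R a b + S R b c := by
  unfold S
  rw [← sum_add_distrib]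
  refine sum_le_sum fun q _ => psum_le_add q _ _ _ fun χ => ?_
  have h3 : psiX χ a c = psiX χ a b + psiX χ b c := by
    unfold psiX
    exact (sum_Ioc_consecutive _ h1 h2).symm
  rw [h3]
  exact norm_add_le _ _

theorem mono {C : ℝ} (hC : 0 < C) {M N : ℕ} (h1 : 1 ≤ M) (h : M ≤ N) :
    C * M * (1 + Real.log M) ^ 5 ≤ C * N * (1 + Real.log N) ^ 5 := by
  have hM : (1 : ℝ) ≤ M := by exact_mod_cast h1
  have hMN : (M : ℝ) ≤ N := by exact_mod_cast h
  have hl : Real.log M ≤ Real.log N := Real.log_le_log (by linarith) hMN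
  have hl0 : 0 ≤ Real.log M := Real.log_nonneg hM
  gcongr

theorem large {C : ℝ} (hC : 0 < C)
    (hM : ∀ R Y₁ Y₂ : ℕ, 1 ≤ R → R ^ 10 ≤ Y₁ → Y₁ ≤ Y₂ → Y₂ ≤ 3 * Y₁ →
      S R Y₁ Y₂ ≤ C * Y₁ * (1 + Real.log Y₁) ^ 5) (R : ℕ) (hR : 1 ≤ R) (N : ℕ) :
    R ^ 10 ≤ N → S R (R ^ 10) N ≤ 2 * C * N * (1 + Real.log N) ^ 5 := by
  induction N using Nat.strong_induction_on with
  | _ N ih =>
    intro hN
    have hR10 : 1 ≤ R ^ 10 := Nat.one_le_pow _ _ hR
    have hN1 : 1 ≤ N := hR10.trans hN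
    have hN1r : (1 : ℝ) ≤ N := by exact_mod_cast hN1
    have hpos : 0 ≤ C * N * (1 + Real.log N) ^ 5 := by
      have := Real.log_nonneg hN1r
      positivity
    by_cases h3 : N ≤ 3 * R ^ 10
    · have h4 := hM R (R ^ 10) N hR le_rfl hN h3
      have h5 := mono hC hR10 hN
      have h6 : C * N * (1 + Real.log N) ^ 5 ≤ 2 * C * N * (1 + Real.log N) ^ 5 := by
        have : 2 * C * N * (1 + Real.log N) ^ 5 = 2 * (C * N * (1 + Real.log N) ^ 5) := by ring
        rw [this]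
        linarith
      exact (h4.trans h5).trans h6
    · push Not at h3
      obtain ⟨M, hMd⟩ : ∃ M : ℕ, M = (N + 2) / 3 := ⟨_, rfl⟩
      have hM1 : R ^ 10 ≤ M := by omega
      have hM2 : M < N := by omega
      have hM3 : N ≤ 3 * M := by omega
      have hM4 : 2 * M ≤ N := by omega
      have hM0 : 1 ≤ M := hR10.trans hM1
      have h4 := ih M hM2 hM1
      have h5 := hM R M N hR hM1 hM2.le hM3
      have h6 := split R (R ^ 10) M N hM1 hM2.le
      have hMr : (1 : ℝ) ≤ M := by exact_mod_cast hM0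
      have hl : Real.log M ≤ Real.log N :=
        Real.log_le_log (by linarith) (by exact_mod_cast hM2.le)
      have hl0 : 0 ≤ Real.log M := Real.log_nonneg hMr
      have hpow : (1 + Real.log M) ^ 5 ≤ (1 + Real.log N) ^ 5 := by gcongr
      have hM4r : (2 : ℝ) * M ≤ N := by exact_mod_cast hM4
      have h7 : 2 * (C * M * (1 + Real.log M) ^ 5) ≤ C * N * (1 + Real.log N) ^ 5 := by
        calc 2 * (C * M * (1 + Real.log M) ^ 5) = C * (2 * M) * (1 + Real.log M) ^ 5 := by ring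
          _ ≤ C * N * (1 + Real.log N) ^ 5 := by gcongr
      have h8 : 2 * C * M * (1 + Real.log M) ^ 5 = 2 * (C * M * (1 + Real.log M) ^ 5) := by ring
      have h9 : 2 * C * N * (1 + Real.log N) ^ 5 = 2 * (C * N * (1 + Real.log N) ^ 5) := by ring
      rw [h8] at h4
      rw [h9]
      have h10 : 0 ≤ C * M * (1 + Real.log M) ^ 5 := by positivity
      linarith

theorem small_part (R N : ℕ) (hR : 1 ≤ R) (hN : R ^ 12 ≤ N) :
    S R 0 (R ^ 10) ≤ 2 * N * (1 + Real.log N) ^ 5 := by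
  have hRr : (1 : ℝ) ≤ R := by exact_mod_cast hR
  have hNr : (R : ℝ) ^ 12 ≤ N := by exact_mod_cast hN
  have hN1 : (1 : ℝ) ≤ N := (one_le_pow₀ hRr).trans hNr
  have hl : 0 ≤ Real.log N := Real.log_nonneg hN1
  have h1 : ∀ (q : ℕ) (χ : DirichletCharacter ℂ q), ‖psiX χ 0 (R ^ 10)‖ ≤
      (R : ℝ) ^ 10 * Real.log N := by
    intro q χ
    unfold psiX
    refine (norm_sum_le _ _).trans ?_
    have h2 : ∀ n ∈ Ioc 0 (R ^ 10), ‖(ArithmeticFunction.vonMangoldt n : ℂ) * χ (n : ZMod q)‖ ≤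
        Real.log N := by
      intro n hn
      rw [mem_Ioc] at hn
      have hn1 : (0 : ℝ) < n := by exact_mod_cast hn.1
      have hnN : (n : ℝ) ≤ N := by
        have e1 : n ≤ R ^ 12 := hn.2.trans (Nat.pow_le_pow_right hR (by norm_num))
        exact_mod_cast e1.trans hN
      rw [norm_mul, Complex.norm_real, Real.norm_of_nonneg ArithmeticFunction.vonMangoldt_nonneg]
      calc ArithmeticFunction.vonMangoldt n * ‖χ (n : ZMod q)‖
          ≤ Real.log n * 1 := mul_le_mul ArithmeticFunction.vonMangoldt_le_log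
            (DirichletCharacter.norm_le_one χ _) (norm_nonneg _)
            (ArithmeticFunction.vonMangoldt_nonneg.trans ArithmeticFunction.vonMangoldt_le_log)
        _ ≤ Real.log N := by
          rw [mul_one]
          exact Real.log_le_log hn1 hnN
    refine (sum_le_card_nsmul _ _ _ h2).trans (le_of_eq ?_)
    rw [nsmul_eq_mul, Nat.card_Ioc, Nat.sub_zero]
    push_cast
    rfl
  unfold S
  have h3 : ∀ q ∈ Ioc R (2 * R), psum q (fun χ => ‖psiX χ 0 (R ^ 10)‖) ≤
      2 * R * ((R : ℝ) ^ 10 * Real.log N) := by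
    intro q hq
    rw [mem_Ioc] at hq
    refine (psum_le_const q _ _ (by positivity) (h1 q)).trans ?_
    refine mul_le_mul_of_nonneg_right ?_ (by positivity)
    exact_mod_cast hq.2
  refine (sum_le_card_nsmul _ _ _ h3).trans ?_
  rw [nsmul_eq_mul, Nat.card_Ioc]
  have h4 : ((2 * R - R : ℕ) : ℝ) = R := by
    have : 2 * R - R = R := by omega
    rw [this]
  rw [h4]
  have h5 : (R : ℝ) * (2 * R * ((R : ℝ) ^ 10 * Real.log N)) = 2 * (R : ℝ) ^ 12 * Real.log N := by
    ring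
  rw [h5]
  have h6 : Real.log N ≤ (1 + Real.log N) ^ 5 := by
    have e1 : (1 + Real.log N) ^ 1 ≤ (1 + Real.log N) ^ 5 :=
      pow_le_pow_right₀ (by linarith) (by norm_num)
    rw [pow_one] at e1
    linarith
  calc 2 * (R : ℝ) ^ 12 * Real.log N ≤ 2 * N * Real.log N := by gcongr
    _ ≤ 2 * N * (1 + Real.log N) ^ 5 := mul_le_mul_of_nonneg_left h6 (by linarith)

end MVXM

open MVXM in
theorem specMVX (hMVP : SpecMVP) : SpecMVX := by
  obtain ⟨C, hC, hM⟩ := hMVP
  refine ⟨2 * C + 2, by linarith, fun R N hR hN => ?_⟩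
  have h1 : R ^ 10 ≤ N := (Nat.pow_le_pow_right hR (by norm_num)).trans hN
  have h2 := large hC hM R hR N h1
  have h3 := small_part R N hR hN
  have h4 := split R 0 (R ^ 10) N (Nat.zero_le _) h1
  have h5 : (2 * C + 2) * N * (1 + Real.log N) ^ 5 =
      2 * N * (1 + Real.log N) ^ 5 + 2 * C * N * (1 + Real.log N) ^ 5 := by ring
  rw [h5]
  exact h4.trans (add_le_add h3 h2)

end

end Pool.Agent.Lib.BVS
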