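import Pool.Agent.Lib.BVS.Spec

/-!
# From prime powers with `Λ` to primes (PIX)
-/

set_option autoImplicit false

namespace Pool.Agent.Lib.BVS

open Finset Filter Topology
open scoped Classical
open Pool.Agent.Lib.MP_d1f1b5_nt.TB (v1 v2 v3 psiX)

noncomputable section

namespace PIXM

/-- the sum of `χ(p) log p` over the primes `p ≤ n` -/
def th {q : ℕ} (χ : DirichletCharacter ℂ q) (n : ℕ) : ℂ :=
  ∑ p ∈ (Icc 1 n).filter Nat.Prime, ((Real.log p : ℝ) : ℂ) * χ (p : ZMod q)

theorem psum_mono {q : ℕ} {Φ Ψ : DirichletCharacter ℂ q → ℝ} (h : ∀ χ, Φ χ ≤ Ψ χ) :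
    psum q Φ ≤ psum q Ψ := by
  unfold psum
  split_ifs
  · exact le_rfl
  · exact Finset.sum_le_sum fun χ _ => h χ

theorem psum_add {q : ℕ} (Φ Ψ : DirichletCharacter ℂ q → ℝ) :
    psum q (fun χ => Φ χ + Ψ χ) = psum q Φ + psum q Ψ := by
  unfold psum
  split_ifs
  · simp
  · exact Finset.sum_add_distrib

theorem psum_sum {q : ℕ} {ι : Type*} (S : Finset ι) (w : ι → ℝ)
    (Φ : ι → DirichletCharacter ℂ q → ℝ) :
    psum q (fun χ => ∑ i ∈ S, w i * Φ i χ) = ∑ i ∈ S, w i * psum q (Φ i) := by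
  unfold psum
  split_ifs
  · simp
  · rw [Finset.sum_comm]
    exact Finset.sum_congr rfl fun i _ => (Finset.mul_sum _ _ _).symm

theorem psum_const_le (q : ℕ) {c : ℝ} (hc : 0 ≤ c) : psum q (fun _ => c) ≤ q * c := by
  unfold psum
  split_ifs with h0
  · positivity
  · have : NeZero q := ⟨h0⟩
    rw [Finset.sum_const, nsmul_eq_mul]
    refine mul_le_mul_of_nonneg_right ?_ hc
    have h1 : ((univ : Finset (DirichletCharacter ℂ q)).filter (fun χ => χ.IsPrimitive)).card ≤
        q.totient := by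
      refine (Finset.card_filter_le _ _).trans (le_of_eq ?_)
      rw [Finset.card_univ, ← Nat.card_eq_fintype_card]
      exact DirichletCharacter.card_eq_totient_of_hasEnoughRootsOfUnity ℂ q
    exact_mod_cast h1.trans (Nat.totient_le q)

theorem sum_const_le (R : ℕ) {c : ℝ} (hc : 0 ≤ c) :
    ∑ q ∈ Ioc R (2 * R), psum q (fun _ => c) ≤ 2 * (R : ℝ) ^ 2 * c := by
  calc ∑ q ∈ Ioc R (2 * R), psum q (fun _ => c)
      ≤ ∑ _q ∈ Ioc R (2 * R), (2 * (R : ℝ)) * c := by
        refine Finset.sum_le_sum fun q hq => (psum_const_le q hc).trans ?_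
        refine mul_le_mul_of_nonneg_right ?_ hc
        exact_mod_cast (Finset.mem_Ioc.1 hq).2
    _ = 2 * (R : ℝ) ^ 2 * c := by
        rw [Finset.sum_const, Nat.card_Ioc, nsmul_eq_mul]
        have : 2 * R - R = R := by omega
        rw [this]
        ring

/-- the prime powers -/
theorem psi_th {q : ℕ} (χ : DirichletCharacter ℂ q) (n : ℕ) :
    ‖th χ n‖ ≤ ‖psiX χ 0 n‖ + (Chebyshev.psi n - Chebyshev.theta n) := by
  have h1 : th χ n = psiX χ 0 n -
      ∑ m ∈ (Ioc 0 n).filter (fun m => ¬ m.Prime),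
        ((ArithmeticFunction.vonMangoldt m : ℝ) : ℂ) * χ (m : ZMod q) := by
    unfold th psiX
    rw [← Finset.sum_filter_add_sum_filter_not (Ioc 0 n) Nat.Prime, add_sub_cancel_right]
    refine Finset.sum_congr ?_ ?_
    · ext p
      simp only [Finset.mem_filter, Finset.mem_Icc, Finset.mem_Ioc]
      constructor
      · rintro ⟨⟨h1, h2⟩, h3⟩
        exact ⟨⟨by omega, h2⟩, h3⟩
      · rintro ⟨⟨h1, h2⟩, h3⟩
        exact ⟨⟨by omega, h2⟩, h3⟩
    · intro p hp
      rw [ArithmeticFunction.vonMangoldt_apply_prime (Finset.mem_filter.1 hp).2]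
  rw [h1]
  refine (norm_sub_le _ _).trans (add_le_add le_rfl ?_)
  refine (norm_sum_le _ _).trans ?_
  rw [Chebyshev.psi_sub_theta_eq_sum_not_prime, Nat.floor_natCast]
  refine Finset.sum_le_sum fun m _ => ?_
  rw [norm_mul, Complex.norm_real, Real.norm_of_nonneg ArithmeticFunction.vonMangoldt_nonneg]
  exact mul_le_of_le_one_right ArithmeticFunction.vonMangoldt_nonneg (χ.norm_le_one _)

/-- the trivial bound -/
theorem th_triv {q : ℕ} (χ : DirichletCharacter ℂ q) (n : ℕ) :
    ‖th χ n‖ ≤ n * Real.log n := by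
  unfold th
  refine (norm_sum_le _ _).trans ?_
  calc ∑ p ∈ (Icc 1 n).filter Nat.Prime, ‖((Real.log p : ℝ) : ℂ) * χ (p : ZMod q)‖
      ≤ ∑ _p ∈ (Icc 1 n).filter Nat.Prime, Real.log n := by
        refine Finset.sum_le_sum fun p hp => ?_
        have hp1 := Finset.mem_Icc.1 (Finset.mem_filter.1 hp).1
        rw [norm_mul, Complex.norm_real, Real.norm_of_nonneg (Real.log_natCast_nonneg p)]
        refine (mul_le_of_le_one_right (Real.log_natCast_nonneg p) (χ.norm_le_one _)).trans ?_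
        exact Real.log_le_log (by exact_mod_cast hp1.1) (by exact_mod_cast hp1.2)
    _ = (((Icc 1 n).filter Nat.Prime).card : ℝ) * Real.log n := by
        rw [Finset.sum_const, nsmul_eq_mul]
    _ ≤ n * Real.log n := by
        refine mul_le_mul_of_nonneg_right ?_ (Real.log_natCast_nonneg n)
        have h := Finset.card_filter_le (Icc 1 n) Nat.Prime
        rw [Nat.card_Icc, Nat.add_sub_cancel] at h
        exact_mod_cast h

/-- the weights of the partial summation -/
def wt (N n : ℕ) : ℝ :=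
  if n = N then 1 / Real.log N else 1 / Real.log n - 1 / Real.log ((n + 1 : ℕ) : ℝ)

theorem wt_nonneg {N n : ℕ} (hn : 2 ≤ n) : 0 ≤ wt N n := by
  unfold wt
  split_ifs with h
  · exact one_div_nonneg.2 (Real.log_natCast_nonneg N)
  · rw [sub_nonneg]
    have h1 : 0 < Real.log n := Real.log_pos (by exact_mod_cast hn)
    refine one_div_le_one_div_of_le h1 (Real.log_le_log (by positivity) ?_)
    exact_mod_cast Nat.le_succ n

theorem th_succ {q : ℕ} (χ : DirichletCharacter ℂ q) (n : ℕ) :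
    th χ (n + 1) = th χ n + if (n + 1).Prime then
      ((Real.log ((n + 1 : ℕ) : ℝ) : ℝ) : ℂ) * χ ((n + 1 : ℕ) : ZMod q) else 0 := by
  unfold th
  rw [Finset.sum_filter, Finset.sum_filter, Finset.sum_Icc_succ_top (by omega)]

theorem pc_succ {q : ℕ} (χ : DirichletCharacter ℂ q) (n : ℕ) :
    ∑ p ∈ (Icc 1 (n + 1)).filter Nat.Prime, χ (p : ZMod q) =
      ∑ p ∈ (Icc 1 n).filter Nat.Prime, χ (p : ZMod q) + if (n + 1).Prime then
      χ ((n + 1 : ℕ) : ZMod q) else 0 := by
  rw [Finset.sum_filter, Finset.sum_filter, Finset.sum_Icc_succ_top (by omega)]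

/-- partial summation -/
theorem abel {q : ℕ} (χ : DirichletCharacter ℂ q) {N : ℕ} (hN : 2 ≤ N) :
    ∑ p ∈ (Icc 1 N).filter Nat.Prime, χ (p : ZMod q) =
      ∑ n ∈ Icc 2 N, ((wt N n : ℝ) : ℂ) * th χ n := by
  -- the sum below `N`
  have key : ∀ N : ℕ, 2 ≤ N → ∑ p ∈ (Icc 1 N).filter Nat.Prime, χ (p : ZMod q) =
      ∑ n ∈ Ico 2 N, ((1 / Real.log n - 1 / Real.log ((n + 1 : ℕ) : ℝ) : ℝ) : ℂ) * th χ n +
        ((1 / Real.log N : ℝ) : ℂ) * th χ N := by
    intro N hN
    induction N, hN using Nat.le_induction with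
    | base =>
      have h1 : ((Icc 1 2).filter Nat.Prime) = {2} := by decide
      have h2 : Real.log ((2 : ℕ) : ℝ) ≠ 0 := by
        have : 0 < Real.log ((2 : ℕ) : ℝ) := Real.log_pos (by norm_num)
        exact this.ne'
      unfold th
      rw [h1, Finset.sum_singleton, Finset.sum_singleton, Finset.Ico_self, Finset.sum_empty,
        zero_add, ← mul_assoc, ← Complex.ofReal_mul, one_div, inv_mul_cancel₀ h2]
      simp
    | succ n hn ih =>
      rw [pc_succ, ih, Finset.sum_Ico_succ_top hn, th_succ]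
      have h2 : Real.log ((n + 1 : ℕ) : ℝ) ≠ 0 := by
        have : 0 < Real.log ((n + 1 : ℕ) : ℝ) := Real.log_pos (by
          push_cast
          have : (2 : ℝ) ≤ n := by exact_mod_cast hn
          linarith)
        exact this.ne'
      set L : ℝ := Real.log ((n + 1 : ℕ) : ℝ) with hL
      have h3 : ((1 / L : ℝ) : ℂ) * (if (n + 1).Prime then ((L : ℝ) : ℂ) *
          χ ((n + 1 : ℕ) : ZMod q) else 0) = if (n + 1).Prime then
            χ ((n + 1 : ℕ) : ZMod q) else 0 := by
        split_ifs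
        · rw [← mul_assoc, ← Complex.ofReal_mul, one_div, inv_mul_cancel₀ h2]
          simp
        · simp
      rw [mul_add, h3]
      push_cast
      ring
  rw [key N hN, ← Finset.Ico_insert_right hN, Finset.sum_insert (by simp)]
  have h4 : ∀ n ∈ Ico 2 N, ((wt N n : ℝ) : ℂ) * th χ n =
      ((1 / Real.log n - 1 / Real.log ((n + 1 : ℕ) : ℝ) : ℝ) : ℂ) * th χ n := by
    intro n hn
    unfold wt
    rw [if_neg (by have := (Finset.mem_Ico.1 hn).2; omega)]
  rw [Finset.sum_congr rfl h4]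
  unfold wt
  rw [if_pos rfl]
  ring

theorem wt_sum {N : ℕ} (hN : 2 ≤ N) : ∑ n ∈ Icc 2 N, wt N n ≤ 2 := by
  have key : ∀ N : ℕ, 2 ≤ N → ∑ n ∈ Ico 2 N,
      (1 / Real.log n - 1 / Real.log ((n + 1 : ℕ) : ℝ)) + 1 / Real.log N =
        1 / Real.log ((2 : ℕ) : ℝ) := by
    intro N hN
    induction N, hN using Nat.le_induction with
    | base => simp
    | succ n hn ih =>
      rw [Finset.sum_Ico_succ_top hn, ← ih]
      ring
  rw [← Finset.Ico_insert_right hN, Finset.sum_insert (by simp)]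
  have h4 : ∀ n ∈ Ico 2 N, wt N n = 1 / Real.log n - 1 / Real.log ((n + 1 : ℕ) : ℝ) := by
    intro n hn
    unfold wt
    rw [if_neg (by have := (Finset.mem_Ico.1 hn).2; omega)]
  rw [Finset.sum_congr rfl h4]
  have h5 : wt N N = 1 / Real.log N := by
    unfold wt
    rw [if_pos rfl]
  rw [h5, add_comm, key N hN]
  have h6 := Real.log_two_gt_d9
  rw [div_le_iff₀ (by push_cast; linarith)]
  push_cast
  linarith

end PIXM

open PIXM in
theorem specPIX (hMVX : SpecMVX) : SpecPIX := by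
  obtain ⟨C, hC, hM⟩ := hMVX
  obtain ⟨K₀, hK₀⟩ := Chebyshev.psi_sub_theta_le_mul_sqrt
  set K : ℝ := |K₀| with hK
  have hK0 : 0 ≤ K := abs_nonneg _
  have hKb : ∀ x : ℝ, Chebyshev.psi x - Chebyshev.theta x ≤ K * √x := by
    intro x
    refine (hK₀ x).trans ?_
    exact mul_le_mul_of_nonneg_right (le_abs_self K₀) (Real.sqrt_nonneg _)
  refine ⟨2 * (C + 2 * K + 2), by positivity, fun R N hR hRN => ?_⟩
  have hR' : (1 : ℝ) ≤ R := by exact_mod_cast hR
  have hN1 : 1 ≤ N := (Nat.one_le_pow _ _ hR).trans hRN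
  have hN1' : (1 : ℝ) ≤ N := by exact_mod_cast hN1
  have hlN : 0 ≤ Real.log N := Real.log_natCast_nonneg N
  have hRN' : (R : ℝ) ^ 14 ≤ N := by exact_mod_cast hRN
  -- the sums `L(n)`
  have hL : ∀ n ∈ Icc 2 N, ∑ q ∈ Ioc R (2 * R), psum q (fun χ => ‖th χ n‖) ≤
      (C + 2 * K + 2) * (N * (1 + Real.log N) ^ 5) := by
    intro n hn
    obtain ⟨hn2, hnN⟩ := Finset.mem_Icc.1 hn
    have hn1' : (1 : ℝ) ≤ n := by exact_mod_cast (by omega : 1 ≤ n)
    have hnN' : (n : ℝ) ≤ N := by exact_mod_cast hnN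
    have hln : Real.log n ≤ Real.log N := Real.log_le_log (by linarith) hnN'
    have hln0 : 0 ≤ Real.log n := Real.log_natCast_nonneg n
    have hpow : (1 : ℝ) + Real.log N ≤ (1 + Real.log N) ^ 5 :=
      le_self_pow₀ (by linarith) (by norm_num)
    have hone : (1 : ℝ) ≤ (1 + Real.log N) ^ 5 := one_le_pow₀ (by linarith)
    have hX : 0 ≤ (N : ℝ) * (1 + Real.log N) ^ 5 := by positivity
    rcases Nat.lt_or_ge n (R ^ 12) with h | h
    · -- the trivial bound
      have h1 : ∑ q ∈ Ioc R (2 * R), psum q (fun χ => ‖th χ n‖) ≤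
          2 * (R : ℝ) ^ 2 * (n * Real.log n) :=
        (Finset.sum_le_sum fun q _ => psum_mono fun χ => th_triv χ n).trans
          (sum_const_le R (by positivity))
      have h2 : (n : ℝ) ≤ (R : ℝ) ^ 12 := by exact_mod_cast h.le
      have h3 : 2 * (R : ℝ) ^ 2 * (n * Real.log n) ≤ 2 * (N * (1 + Real.log N) ^ 5) := by
        calc 2 * (R : ℝ) ^ 2 * (n * Real.log n)
            ≤ 2 * (R : ℝ) ^ 2 * ((R : ℝ) ^ 12 * Real.log N) := by gcongr
          _ = 2 * ((R : ℝ) ^ 14 * Real.log N) := by ring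
          _ ≤ 2 * (N * (1 + Real.log N) ^ 5) := by
            have : Real.log N ≤ (1 + Real.log N) ^ 5 := by linarith
            gcongr
      nlinarith
    · have h1 : ∑ q ∈ Ioc R (2 * R), psum q (fun χ => ‖th χ n‖) ≤
          ∑ q ∈ Ioc R (2 * R), (psum q (fun χ => ‖psiX χ 0 n‖) +
            psum q (fun _ => Chebyshev.psi n - Chebyshev.theta n)) := by
        refine Finset.sum_le_sum fun q _ => ?_
        rw [← psum_add]
        exact psum_mono fun χ => psi_th χ n
      rw [Finset.sum_add_distrib] at h1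
      have h0 : 0 ≤ Chebyshev.psi n - Chebyshev.theta n := by
        have := Chebyshev.theta_le_psi n
        linarith
      have h2 := hM R n hR h
      have h3 := sum_const_le R h0
      have h4 := hKb n
      have h5 : C * n * (1 + Real.log n) ^ 5 ≤ C * (N * (1 + Real.log N) ^ 5) := by
        rw [mul_assoc]
        gcongr
      have h6 : 2 * (R : ℝ) ^ 2 * (Chebyshev.psi n - Chebyshev.theta n) ≤
          2 * K * (N * (1 + Real.log N) ^ 5) := by
        have h7 : (R : ℝ) ^ 2 ≤ √N := by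
          apply Real.le_sqrt_of_sq_le
          calc ((R : ℝ) ^ 2) ^ 2 = (R : ℝ) ^ 4 := by ring
            _ ≤ (R : ℝ) ^ 14 := pow_le_pow_right₀ hR' (by norm_num)
            _ ≤ N := hRN'
        have h8 : √(n : ℝ) ≤ √(N : ℝ) := Real.sqrt_le_sqrt hnN'
        calc 2 * (R : ℝ) ^ 2 * (Chebyshev.psi n - Chebyshev.theta n)
            ≤ 2 * (R : ℝ) ^ 2 * (K * √n) := by gcongr
          _ ≤ 2 * √N * (K * √N) := by gcongr
          _ = 2 * K * (√N * √N) := by ring
          _ = 2 * K * N := by rw [Real.mul_self_sqrt (by positivity)]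
          _ ≤ 2 * K * (N * (1 + Real.log N) ^ 5) := by
            have : (N : ℝ) ≤ N * (1 + Real.log N) ^ 5 := le_mul_of_one_le_right (by positivity) hone
            gcongr
      nlinarith
  -- `N = 1`
  rcases Nat.lt_or_ge N 2 with hN2 | hN2
  · have hN : N = 1 := by omega
    subst hN
    have h0 : ∀ q, PP q 1 = 0 := by
      intro q
      unfold PP psum
      split_ifs
      · rfl
      · refine Finset.sum_eq_zero fun χ _ => ?_
        have : ((Icc 1 1).filter Nat.Prime) = ∅ := by decide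
        rw [this, Finset.sum_empty, norm_zero]
    rw [Finset.sum_eq_zero fun q _ => h0 q]
    positivity
  -- partial summation
  have hP : ∀ q ∈ Ioc R (2 * R), PP q N ≤ ∑ n ∈ Icc 2 N, wt N n * psum q (fun χ => ‖th χ n‖) := by
    intro q _
    rw [← psum_sum]
    unfold PP
    refine psum_mono fun χ => ?_
    rw [abel χ hN2]
    refine (norm_sum_le _ _).trans (Finset.sum_le_sum fun n hn => ?_)
    rw [norm_mul, Complex.norm_real, Real.norm_of_nonneg (wt_nonneg (Finset.mem_Icc.1 hn).1)]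
  calc ∑ q ∈ Ioc R (2 * R), PP q N
      ≤ ∑ q ∈ Ioc R (2 * R), ∑ n ∈ Icc 2 N, wt N n * psum q (fun χ => ‖th χ n‖) :=
        Finset.sum_le_sum hP
    _ = ∑ n ∈ Icc 2 N, wt N n * ∑ q ∈ Ioc R (2 * R), psum q (fun χ => ‖th χ n‖) := by
        rw [Finset.sum_comm]
        exact Finset.sum_congr rfl fun n _ => (Finset.mul_sum _ _ _).symm
    _ ≤ ∑ n ∈ Icc 2 N, wt N n * ((C + 2 * K + 2) * (N * (1 + Real.log N) ^ 5)) :=
        Finset.sum_le_sum fun n hn =>
          mul_le_mul_of_nonneg_left (hL n hn) (wt_nonneg (Finset.mem_Icc.1 hn).1)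
    _ = (∑ n ∈ Icc 2 N, wt N n) * ((C + 2 * K + 2) * (N * (1 + Real.log N) ^ 5)) := by
        rw [Finset.sum_mul]
    _ ≤ 2 * ((C + 2 * K + 2) * (N * (1 + Real.log N) ^ 5)) :=
        mul_le_mul_of_nonneg_right (wt_sum hN2) (by positivity)
    _ = _ := by ring

end

end Pool.Agent.Lib.BVS
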