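import Pool.Agent.Lib.BVS.Spec
import Pool.Agent.Lib.MP_391708_nt.QPA.BDHChar
import Pool.Agent.Lib.SW.SWA

/-!
# Reduction to primitive characters (SPL)
-/

set_option autoImplicit false

namespace Pool.Agent.Lib.BVS

open Finset Filter Topology
open scoped Classical

noncomputable section

namespace SPLM

open Pool.Agent.Lib.MP391708.QPA (BDH.exists_prim BDH.changeLevel_apply BDH.char_zero)

/-- the comparison, keeping the sum over the characters -/
theorem main {q : ℕ} [NeZero q] {a : ℕ} (ha : a.Coprime q) (S : Finset ℕ) (w : ℕ → ℝ)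
    (hw : ∀ n ∈ S, 0 ≤ w n) {E : ℝ}
    (hE : ∑ n ∈ S.filter (fun n => ¬ n.Coprime q), w n ≤ E) :
    |∑ n ∈ S.filter (fun n => n ≡ a [MOD q]), w n - (∑ n ∈ S, w n) / q.totient| ≤
      (∑ χ ∈ (univ : Finset (DirichletCharacter ℂ q)).filter (fun χ => χ ≠ 1),
        ‖∑ n ∈ S, (w n : ℂ) * χ (n : ZMod q)‖ + E) / q.totient := by
  have hφ1 : (1 : ℝ) ≤ q.totient := by
    exact_mod_cast Nat.totient_pos.2 (Nat.pos_of_ne_zero (NeZero.ne q))
  have hφ : (0 : ℝ) < q.totient := by linarith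
  set X : ℝ := ∑ n ∈ S.filter (fun n => n ≡ a [MOD q]), w n with hX
  set Y : ℝ := ∑ n ∈ S, w n with hY
  have horth := SW.SWAM.orth ha S w
  rw [← hX] at horth
  -- the principal character
  have hu : IsUnit ((a : ZMod q)⁻¹) := by
    have h := (ZMod.isUnit_iff_coprime a q).2 ha
    obtain ⟨u, hu⟩ := h
    rw [← hu, ZMod.inv_coe_unit]
    exact Units.isUnit _
  have h1 : (1 : DirichletCharacter ℂ q) ((a : ZMod q)⁻¹) = 1 := MulChar.one_apply hu
  have h2 : ∑ n ∈ S, (w n : ℂ) * (1 : DirichletCharacter ℂ q) n =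
      ((Y - ∑ n ∈ S.filter (fun n => ¬ n.Coprime q), w n : ℝ) : ℂ) := by
    rw [hY, ← Finset.sum_filter_add_sum_filter_not S (fun n => n.Coprime q) w,
      add_sub_cancel_right, Finset.sum_filter]
    push_cast
    refine Finset.sum_congr rfl fun n _ => ?_
    by_cases h : n.Coprime q
    · rw [if_pos h, MulChar.one_apply ((ZMod.isUnit_iff_coprime n q).2 h), mul_one]
    · rw [if_neg h, MulChar.map_nonunit _ (fun h' => h ((ZMod.isUnit_iff_coprime n q).1 h')),
        mul_zero, Complex.ofReal_zero]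
  rw [← Finset.add_sum_erase _ _ (Finset.mem_univ (1 : DirichletCharacter ℂ q)), h1, h2,
    one_mul] at horth
  have hfe : (Finset.univ : Finset (DirichletCharacter ℂ q)).erase 1 =
      (univ : Finset (DirichletCharacter ℂ q)).filter (fun χ => χ ≠ 1) := by
    ext χ
    simp
  rw [hfe] at horth
  set R : ℂ := ∑ χ ∈ (univ : Finset (DirichletCharacter ℂ q)).filter (fun χ => χ ≠ 1),
    χ ((a : ZMod q)⁻¹) * ∑ n ∈ S, (w n : ℂ) * χ n with hR
  have hRn : ‖R‖ ≤ ∑ χ ∈ (univ : Finset (DirichletCharacter ℂ q)).filter (fun χ => χ ≠ 1),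
        ‖∑ n ∈ S, (w n : ℂ) * χ (n : ZMod q)‖ := by
    refine (norm_sum_le _ _).trans (Finset.sum_le_sum fun χ _ => ?_)
    rw [norm_mul]
    calc _ ≤ 1 * ‖∑ n ∈ S, (w n : ℂ) * χ n‖ :=
          mul_le_mul_of_nonneg_right (χ.norm_le_one _) (norm_nonneg _)
      _ = _ := by rw [one_mul]
  set N : ℝ := ∑ n ∈ S.filter (fun n => ¬ n.Coprime q), w n with hN
  have hN0 : 0 ≤ N := Finset.sum_nonneg fun n hn => hw n (Finset.mem_filter.1 hn).1
  have h3 : ((q.totient * X - Y : ℝ) : ℂ) = R - (N : ℂ) := by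
    push_cast at horth ⊢
    rw [← horth]
    ring
  have h4 : |q.totient * X - Y| ≤
      ∑ χ ∈ (univ : Finset (DirichletCharacter ℂ q)).filter (fun χ => χ ≠ 1),
        ‖∑ n ∈ S, (w n : ℂ) * χ (n : ZMod q)‖ + E := by
    have h5 : |q.totient * X - Y| = ‖R - (N : ℂ)‖ := by
      rw [← h3, Complex.norm_real, Real.norm_eq_abs]
    rw [h5]
    refine (norm_sub_le _ _).trans (add_le_add hRn ?_)
    rw [Complex.norm_real, Real.norm_of_nonneg hN0]
    exact hE
  have h6 : X - Y / q.totient = (q.totient * X - Y) / q.totient := by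
    field_simp
  rw [h6, abs_div, abs_of_pos hφ]
  exact div_le_div_of_nonneg_right h4 hφ.le

/-- the primes dividing `q` -/
theorem card_not_coprime (q N : ℕ) (hq : q ≠ 0) :
    ((((Finset.Icc 1 N).filter Nat.Prime).filter (fun n => ¬ n.Coprime q)).card : ℝ) ≤ q := by
  have h := SW.SWAM.bound_primes q N hq (fun _ => (1 : ℝ)) (W := 1) zero_le_one
    (fun _ _ _ => le_refl _)
  simpa using h

/-- an induced character -/
theorem changeLevel_sum {n q : ℕ} (hq : q ≠ 0) (hn : n ∣ q) (ψ : DirichletCharacter ℂ n) (N : ℕ) :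
    ‖∑ p ∈ (Icc 1 N).filter Nat.Prime, (DirichletCharacter.changeLevel hn ψ) (p : ZMod q)‖ ≤
      ‖∑ p ∈ (Icc 1 N).filter Nat.Prime, ψ (p : ZMod n)‖ + q := by
  have h1 : ∑ p ∈ (Icc 1 N).filter Nat.Prime,
      (DirichletCharacter.changeLevel hn ψ) (p : ZMod q) =
      ∑ p ∈ (Icc 1 N).filter Nat.Prime, ψ (p : ZMod n) -
        ∑ p ∈ ((Icc 1 N).filter Nat.Prime).filter (fun n => ¬ n.Coprime q), ψ (p : ZMod n) := by
    have h2 : ∑ p ∈ ((Icc 1 N).filter Nat.Prime).filter (fun m => m.Coprime q),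
        ψ (p : ZMod n) = ∑ p ∈ (Icc 1 N).filter Nat.Prime,
      (DirichletCharacter.changeLevel hn ψ) (p : ZMod q) := by
      rw [Finset.sum_filter]
      refine Finset.sum_congr rfl fun p _ => ?_
      split_ifs with h
      · exact (BDH.changeLevel_apply hn ψ h).symm
      · exact (BDH.char_zero _ h).symm
    rw [eq_sub_iff_add_eq,
      ← Finset.sum_filter_add_sum_filter_not ((Icc 1 N).filter Nat.Prime) (fun m => m.Coprime q)
        (fun p => ψ (p : ZMod n)), h2]
  rw [h1]
  refine (norm_sub_le _ _).trans (add_le_add le_rfl ?_)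
  refine (norm_sum_le _ _).trans ?_
  calc ∑ p ∈ ((Icc 1 N).filter Nat.Prime).filter (fun n => ¬ n.Coprime q), ‖ψ (p : ZMod n)‖
      ≤ ∑ _p ∈ ((Icc 1 N).filter Nat.Prime).filter (fun n => ¬ n.Coprime q), (1 : ℝ) :=
        Finset.sum_le_sum fun p _ => ψ.norm_le_one _
    _ = ((((Icc 1 N).filter Nat.Prime).filter (fun n => ¬ n.Coprime q)).card : ℝ) := by
        rw [Finset.sum_const, nsmul_eq_mul, mul_one]
    _ ≤ q := card_not_coprime q N hq

/-- the characters with the conductor `n` -/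
theorem fiber {q n : ℕ} [NeZero q] (hn : n ∣ q) (hn1 : n ≠ 0) (N : ℕ) :
    ∑ χ ∈ ((univ : Finset (DirichletCharacter ℂ q)).filter (fun χ => χ ≠ 1)).filter
        (fun χ => χ.conductor = n), ‖∑ p ∈ (Icc 1 N).filter Nat.Prime, χ (p : ZMod q)‖ ≤
      PP n N + q * ((((univ : Finset (DirichletCharacter ℂ q)).filter (fun χ => χ ≠ 1)).filter
        (fun χ => χ.conductor = n)).card : ℝ) := by
  have : NeZero n := ⟨hn1⟩
  set A := ((univ : Finset (DirichletCharacter ℂ q)).filter (fun χ => χ ≠ 1)).filter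
        (fun χ => χ.conductor = n) with hA
  set T := ((univ : Finset (DirichletCharacter ℂ n)).filter (fun ψ => ψ.IsPrimitive)).filter
    (fun ψ => DirichletCharacter.changeLevel hn ψ ∈ A) with hT
  have hinj : Function.Injective (DirichletCharacter.changeLevel (R := ℂ) hn) :=
    DirichletCharacter.changeLevel_injective hn
  have himg : T.image (fun ψ => DirichletCharacter.changeLevel hn ψ) = A := by
    ext χ
    rw [Finset.mem_image]
    constructor
    · rintro ⟨ψ, hψ, rfl⟩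
      exact (Finset.mem_filter.1 hψ).2
    · intro hχ
      obtain ⟨ψ, hψ, h⟩ := BDH.exists_prim χ n (Finset.mem_filter.1 hχ).2 hn
      refine ⟨ψ, ?_, h⟩
      rw [hT, Finset.mem_filter, Finset.mem_filter, h]
      exact ⟨⟨Finset.mem_univ _, hψ⟩, hχ⟩
  have hcard : A.card = T.card := by
    rw [← himg]
    exact Finset.card_image_of_injective _ hinj
  have h1 : ∑ χ ∈ A, ‖∑ p ∈ (Icc 1 N).filter Nat.Prime, χ (p : ZMod q)‖ =
      ∑ ψ ∈ T, ‖∑ p ∈ (Icc 1 N).filter Nat.Prime,
        (DirichletCharacter.changeLevel hn ψ) (p : ZMod q)‖ := by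
    rw [← himg, Finset.sum_image]
    intro a _ c _ h
    exact hinj h
  rw [h1, hcard]
  calc ∑ ψ ∈ T, ‖∑ p ∈ (Icc 1 N).filter Nat.Prime,
        (DirichletCharacter.changeLevel hn ψ) (p : ZMod q)‖
      ≤ ∑ ψ ∈ T, (‖∑ p ∈ (Icc 1 N).filter Nat.Prime, ψ (p : ZMod n)‖ + q) :=
        Finset.sum_le_sum fun ψ _ => changeLevel_sum (NeZero.ne q) hn ψ N
    _ = ∑ ψ ∈ T, ‖∑ p ∈ (Icc 1 N).filter Nat.Prime, ψ (p : ZMod n)‖ + q * (T.card : ℝ) := by
        rw [Finset.sum_add_distrib, Finset.sum_const, nsmul_eq_mul, mul_comm]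
    _ ≤ _ := by
        refine add_le_add ?_ le_rfl
        unfold PP
        rw [psum_eq]
        exact Finset.sum_le_sum_of_subset_of_nonneg (Finset.filter_subset _ _)
          (fun _ _ _ => norm_nonneg _)

/-- all characters `≠ 1` -/
theorem total (q : ℕ) [NeZero q] (N : ℕ) :
    ∑ χ ∈ (univ : Finset (DirichletCharacter ℂ q)).filter (fun χ => χ ≠ 1),
        ‖∑ p ∈ (Icc 1 N).filter Nat.Prime, χ (p : ZMod q)‖ ≤
      ∑ d ∈ q.divisors.filter (fun d => d ≠ 1), PP d N + q * q.totient := by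
  have hmaps : ∀ χ ∈ (univ : Finset (DirichletCharacter ℂ q)).filter (fun χ => χ ≠ 1),
      χ.conductor ∈ q.divisors.filter (fun d => d ≠ 1) := by
    intro χ hχ
    rw [Finset.mem_filter] at hχ
    rw [Finset.mem_filter, Nat.mem_divisors]
    exact ⟨⟨χ.conductor_dvd_level, NeZero.ne q⟩,
      fun h => hχ.2 ((χ.eq_one_iff_conductor_eq_one).mpr h)⟩
  rw [← Finset.sum_fiberwise_of_maps_to hmaps]
  have hcard : (∑ d ∈ q.divisors.filter (fun d => d ≠ 1),
      ((((univ : Finset (DirichletCharacter ℂ q)).filter (fun χ => χ ≠ 1)).filter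
        (fun χ => χ.conductor = d)).card : ℝ)) ≤ q.totient := by
    have h1 := Finset.card_eq_sum_card_fiberwise hmaps
    have h2 : ((univ : Finset (DirichletCharacter ℂ q)).filter (fun χ => χ ≠ 1)).card ≤
        q.totient := by
      refine (Finset.card_filter_le _ _).trans (le_of_eq ?_)
      rw [Finset.card_univ, ← Nat.card_eq_fintype_card]
      exact DirichletCharacter.card_eq_totient_of_hasEnoughRootsOfUnity ℂ q
    rw [h1] at h2
    exact_mod_cast h2
  calc _ ≤ ∑ d ∈ q.divisors.filter (fun d => d ≠ 1), (PP d N +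
        q * ((((univ : Finset (DirichletCharacter ℂ q)).filter (fun χ => χ ≠ 1)).filter
        (fun χ => χ.conductor = d)).card : ℝ)) := by
        refine Finset.sum_le_sum fun d hd => ?_
        have h := Nat.mem_divisors.1 (Finset.mem_filter.1 hd).1
        refine fiber h.1 ?_ N
        rintro rfl
        exact h.2 (zero_dvd_iff.1 h.1)
    _ = ∑ d ∈ q.divisors.filter (fun d => d ≠ 1), PP d N +
        q * ∑ d ∈ q.divisors.filter (fun d => d ≠ 1),
        ((((univ : Finset (DirichletCharacter ℂ q)).filter (fun χ => χ ≠ 1)).filter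
        (fun χ => χ.conductor = d)).card : ℝ) := by
        rw [Finset.sum_add_distrib, Finset.mul_sum]
    _ ≤ _ := add_le_add le_rfl (mul_le_mul_of_nonneg_left hcard (Nat.cast_nonneg q))

end SPLM

theorem specSPL : SpecSPL := by
  intro q a N hq ha
  have : NeZero q := ⟨hq.ne'⟩
  have hφ1 : (1 : ℝ) ≤ q.totient := by
    exact_mod_cast Nat.totient_pos.2 hq
  have hφ : (0 : ℝ) < q.totient := by linarith
  have h1 := SPLM.main ha ((Icc 1 N).filter Nat.Prime) (fun _ => (1 : ℝ))
    (fun _ _ => zero_le_one) (E := q) (by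
      have h := SPLM.card_not_coprime q N hq.ne'
      simpa using h)
  rw [Finset.filter_filter] at h1
  simp only [Finset.sum_const, nsmul_eq_mul, mul_one, Complex.ofReal_one, one_mul] at h1
  refine h1.trans ?_
  have h2 := SPLM.total q N
  have h3 : (q : ℝ) / q.totient ≤ q := div_le_self (Nat.cast_nonneg q) hφ1
  calc _ ≤ (∑ d ∈ q.divisors.filter (fun d => d ≠ 1), PP d N + q * q.totient + q) / q.totient :=
        div_le_div_of_nonneg_right (add_le_add h2 le_rfl) hφ.le
    _ = (∑ d ∈ q.divisors.filter (fun d => d ≠ 1), PP d N) / q.totient + q +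
        (q : ℝ) / q.totient := by
        field_simp
    _ ≤ _ := by linarith

end

end Pool.Agent.Lib.BVS
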