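import Pool.Agent.Lib.BVS.Spec

/-!
# Euler's function and the sum over the multiples (TOT)
-/

set_option autoImplicit false

namespace Pool.Agent.Lib.BVS

open Finset Filter Topology

noncomputable section

namespace TOTM

lemma prod_bound (S : Finset ℕ) (h : ∀ p ∈ S, 2 ≤ p) :
    1 / ((S.card : ℝ) + 1) ≤ ∏ p ∈ S, (1 - ((p : ℝ))⁻¹) := by
  revert h
  refine Finset.induction_on_max (motive := fun S : Finset ℕ => (∀ p ∈ S, 2 ≤ p) →
    1 / ((S.card : ℝ) + 1) ≤ ∏ p ∈ S, (1 - ((p : ℝ))⁻¹)) S ?_ ?_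
  · intro _
    simp
  · intro m S hm ih h
    have hmS : m ∉ S := fun h' => lt_irrefl _ (hm m h')
    have h2 : ∀ p ∈ S, 2 ≤ p := fun p hp => h p (mem_insert_of_mem hp)
    have h3 : S ⊆ Finset.Ico 2 m := fun p hp => mem_Ico.2 ⟨h2 p hp, hm p hp⟩
    have h4 := card_le_card h3
    rw [Nat.card_Ico] at h4
    have h5 : 2 ≤ m := h m (mem_insert_self _ _)
    have h6 : (S.card : ℝ) + 2 ≤ m := by
      have : S.card + 2 ≤ m := by omega
      exact_mod_cast this
    rw [card_insert_of_notMem hmS, prod_insert hmS]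
    have h7 : (1 : ℝ) - 1 / ((S.card : ℝ) + 2) ≤ 1 - ((m : ℝ))⁻¹ := by
      rw [← one_div]
      have : 1 / (m : ℝ) ≤ 1 / ((S.card : ℝ) + 2) := one_div_le_one_div_of_le (by positivity) h6
      linarith
    have h8 : (1 : ℝ) / (((S.card + 1 : ℕ) : ℝ) + 1) =
        (1 - 1 / ((S.card : ℝ) + 2)) * (1 / ((S.card : ℝ) + 1)) := by
      have ha : (S.card : ℝ) + 2 ≠ 0 := by positivity
      have hb : (S.card : ℝ) + 1 ≠ 0 := by positivity
      push_cast
      field_simp
      ring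
    rw [h8]
    have h9 : (0 : ℝ) ≤ 1 / ((S.card : ℝ) + 1) := by positivity
    have h10 : (0 : ℝ) ≤ 1 - ((m : ℝ))⁻¹ := by
      have : ((m : ℝ))⁻¹ ≤ 1 := inv_le_one_of_one_le₀ (by exact_mod_cast h5.trans' one_le_two)
      linarith
    exact mul_le_mul h7 (ih h2) h9 h10

lemma tot_real {t : ℕ} (ht : 1 ≤ t) : (t : ℝ) / (1 + 2 * Real.log t) ≤ t.totient := by
  have h1 : ((t.totient : ℝ)) = t * ∏ p ∈ t.primeFactors, (1 - ((p : ℝ))⁻¹) := by
    have h2 := Nat.totient_eq_mul_prod_factors t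
    have h3 : (((t.totient : ℚ)) : ℝ) = ((t * ∏ p ∈ t.primeFactors, (1 - ((p : ℚ))⁻¹) : ℚ) : ℝ) := by
      rw [h2]
    push_cast at h3
    exact h3
  have h2 := prod_bound t.primeFactors (fun p hp => (Nat.prime_of_mem_primeFactors hp).two_le)
  have h3 : (t.primeFactors.card : ℝ) ≤ 2 * Real.log t := by
    have h4 : 2 ^ t.primeFactors.card ≤ t := by
      have h5 : 2 ^ t.primeFactors.card ≤ ∏ p ∈ t.primeFactors, p :=
        pow_card_le_prod _ _ _ (fun p hp => (Nat.prime_of_mem_primeFactors hp).two_le)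
      exact h5.trans (Nat.le_of_dvd (by omega) (Nat.prod_primeFactors_dvd t))
    have h6 : ((2 : ℝ)) ^ t.primeFactors.card ≤ t := by exact_mod_cast h4
    have h7 := Real.log_le_log (by positivity) h6
    rw [Real.log_pow] at h7
    have h8 := Real.log_two_gt_d9
    have h9 : (0 : ℝ) ≤ t.primeFactors.card := by positivity
    nlinarith
  have hl : 0 ≤ Real.log t := Real.log_nonneg (by exact_mod_cast ht)
  rw [h1, div_eq_mul_one_div]
  refine mul_le_mul_of_nonneg_left (le_trans ?_ h2) (by positivity)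
  exact one_div_le_one_div_of_le (by positivity) (by linarith)

theorem tot_pos {n : ℕ} (hn : 1 ≤ n) : (0 : ℝ) < (n.totient : ℝ) := by
  exact_mod_cast Nat.totient_pos.2 (by omega)

theorem one (n : ℕ) (hn : 1 ≤ n) : 1 / (n.totient : ℝ) ≤ 2 * (1 + Real.log n) / n := by
  have h1 := tot_real hn
  have hn0 : (0 : ℝ) < n := by exact_mod_cast hn
  have hl : 0 ≤ Real.log n := Real.log_nonneg (by exact_mod_cast hn)
  have h0 := tot_pos hn
  rw [div_le_iff₀ (by linarith)] at h1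
  rw [div_le_div_iff₀ h0 hn0]
  nlinarith

theorem harm (Q : ℕ) : ∑ k ∈ Icc 1 Q, 1 / (k : ℝ) ≤ 1 + Real.log Q := by
  have h := harmonic_le_one_add_log Q
  rw [harmonic_eq_sum_Icc] at h
  push_cast at h
  simpa [one_div] using h

theorem sum_tot (Q : ℕ) : ∑ k ∈ Icc 1 Q, 1 / (k.totient : ℝ) ≤ 2 * (1 + Real.log Q) ^ 2 := by
  rcases Nat.eq_zero_or_pos Q with h | hQ
  · subst h
    simp
  have hl : 0 ≤ Real.log Q := Real.log_nonneg (by exact_mod_cast hQ)
  calc ∑ k ∈ Icc 1 Q, 1 / (k.totient : ℝ) ≤ ∑ k ∈ Icc 1 Q, 2 * (1 + Real.log Q) * (1 / (k : ℝ)) := by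
        refine sum_le_sum fun k hk => ?_
        rw [Finset.mem_Icc] at hk
        have hk0 : (0 : ℝ) < k := by exact_mod_cast hk.1
        have h1 : Real.log k ≤ Real.log Q := Real.log_le_log hk0 (by exact_mod_cast hk.2)
        refine (one k hk.1).trans ?_
        rw [mul_one_div]
        exact div_le_div_of_nonneg_right (by linarith) hk0.le
    _ = 2 * (1 + Real.log Q) * ∑ k ∈ Icc 1 Q, 1 / (k : ℝ) := by rw [mul_sum]
    _ ≤ 2 * (1 + Real.log Q) * (1 + Real.log Q) :=
        mul_le_mul_of_nonneg_left (harm Q) (by linarith)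
    _ = _ := by ring

theorem inner (Q d : ℕ) (hd : 1 ≤ d) :
    ∑ q ∈ (Icc 1 Q).filter (fun q => d ∣ q), 1 / (q.totient : ℝ) ≤
      1 / (d.totient : ℝ) * (2 * (1 + Real.log Q) ^ 2) := by
  have hd0 := tot_pos hd
  have hF : ∀ q ∈ (Icc 1 Q).filter (fun q => d ∣ q), 1 ≤ q ∧ q ≤ Q ∧ q = d * (q / d) ∧ 1 ≤ q / d := by
    intro q hq
    rw [Finset.mem_filter, Finset.mem_Icc] at hq
    obtain ⟨⟨h1, h2⟩, h3⟩ := hq
    have h4 := Nat.mul_div_cancel' h3
    refine ⟨h1, h2, h4.symm, ?_⟩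
    rcases Nat.eq_zero_or_pos (q / d) with h5 | h5
    · rw [h5, mul_zero] at h4
      omega
    · exact h5
  calc ∑ q ∈ (Icc 1 Q).filter (fun q => d ∣ q), 1 / (q.totient : ℝ)
      ≤ ∑ q ∈ (Icc 1 Q).filter (fun q => d ∣ q),
          1 / (d.totient : ℝ) * (1 / ((q / d).totient : ℝ)) := by
        refine sum_le_sum fun q hq => ?_
        obtain ⟨h1, h2, h3, h4⟩ := hF q hq
        have h5 := tot_pos h4
        rw [one_div_mul_one_div]
        refine one_div_le_one_div_of_le (by positivity) ?_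
        have h6 := Nat.totient_super_multiplicative d (q / d)
        rw [← h3] at h6
        exact_mod_cast h6
    _ = 1 / (d.totient : ℝ) * ∑ q ∈ (Icc 1 Q).filter (fun q => d ∣ q),
          1 / ((q / d).totient : ℝ) := by rw [mul_sum]
    _ = 1 / (d.totient : ℝ) * ∑ k ∈ ((Icc 1 Q).filter (fun q => d ∣ q)).image (fun q => q / d),
          1 / (k.totient : ℝ) := by
        rw [Finset.sum_image]
        intro a ha b hb hab
        have h1 := (hF a ha).2.2.1
        have h2 := (hF b hb).2.2.1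
        simp only at hab
        rw [h1, h2, hab]
    _ ≤ 1 / (d.totient : ℝ) * ∑ k ∈ Icc 1 Q, 1 / (k.totient : ℝ) := by
        refine mul_le_mul_of_nonneg_left ?_ (by positivity)
        refine sum_le_sum_of_subset_of_nonneg ?_ (fun k _ _ => by positivity)
        intro k hk
        rw [Finset.mem_image] at hk
        obtain ⟨q, hq, rfl⟩ := hk
        obtain ⟨h1, h2, h3, h4⟩ := hF q hq
        rw [Finset.mem_Icc]
        exact ⟨h4, (Nat.div_le_self q d).trans h2⟩
    _ ≤ _ := mul_le_mul_of_nonneg_left (sum_tot Q) (by positivity)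

theorem two (Q : ℕ) (P : ℕ → ℝ) (hP : ∀ d, 0 ≤ P d) :
    ∑ q ∈ Icc 1 Q, (∑ d ∈ q.divisors.filter (fun d => d ≠ 1), P d) / q.totient ≤
      2 * (1 + Real.log Q) ^ 2 * ∑ d ∈ Icc 2 Q, P d / d.totient := by
  have h1 : ∀ q ∈ Icc 1 Q, (∑ d ∈ q.divisors.filter (fun d => d ≠ 1), P d) / (q.totient : ℝ) =
      ∑ d ∈ Icc 2 Q, if d ∣ q then P d / (q.totient : ℝ) else 0 := by
    intro q hq
    rw [Finset.mem_Icc] at hq
    have h2 : q.divisors.filter (fun d => d ≠ 1) = (Icc 2 Q).filter (fun d => d ∣ q) := by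
      ext d
      rw [Finset.mem_filter, Nat.mem_divisors, Finset.mem_filter, Finset.mem_Icc]
      constructor
      · rintro ⟨⟨h3, h4⟩, h5⟩
        have h6 := Nat.le_of_dvd (by omega) h3
        have h7 : d ≠ 0 := by
          rintro rfl
          exact h4 (Nat.eq_zero_of_zero_dvd h3)
        exact ⟨⟨by omega, by omega⟩, h3⟩
      · rintro ⟨⟨h3, h4⟩, h5⟩
        exact ⟨⟨h5, by omega⟩, by omega⟩
    rw [h2, sum_div, Finset.sum_filter]
  rw [sum_congr rfl h1, sum_comm, mul_sum]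
  refine sum_le_sum fun d hd => ?_
  rw [Finset.mem_Icc] at hd
  rw [← Finset.sum_filter]
  have h3 : ∑ q ∈ (Icc 1 Q).filter (fun q => d ∣ q), P d / (q.totient : ℝ) =
      P d * ∑ q ∈ (Icc 1 Q).filter (fun q => d ∣ q), 1 / (q.totient : ℝ) := by
    rw [mul_sum]
    exact sum_congr rfl fun q _ => by rw [mul_one_div]
  rw [h3]
  refine (mul_le_mul_of_nonneg_left (inner Q d (by omega)) (hP d)).trans (le_of_eq ?_)
  ring

end TOTM

theorem specTOT : SpecTOT where
  one := TOTM.one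
  two := fun Q P _ hP => by
    have h := TOTM.two Q P hP
    convert h using 2

end

end Pool.Agent.Lib.BVS
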