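import Pool.Agent.Lib.BVS.Spec
import Pool.Agent.Lib.MP_d1f1b5_nt.TB.VAU
import Pool.Agent.Lib.MP_d1f1b5_nt.TB.KUM

/-!
# BVS, module TYAP: type I sums for every modulus
-/

set_option autoImplicit false

namespace Pool.Agent.Lib.BVS

open Finset Filter Topology
open scoped Classical
open Pool.Agent.Lib.MP_d1f1b5_nt.TB (v1 v2 v3 psiX cc)

open Pool.Agent.Lib.MP_d1f1b5_nt.TB.TYAM in
theorem specTYAP : SpecTYAP := by
  intro q U V Y₁ Y₂ _ χ hχ hU hV hY hY2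
  have hCCB := Pool.Agent.Lib.MP_d1f1b5_nt.TB.specCCB
  have hq0 : (0 : ℝ) ≤ q := Nat.cast_nonneg q
  have hlY : 0 ≤ Real.log (Y₂ : ℝ) := Real.log_natCast_nonneg Y₂
  have hdvd : ∀ n d : ℕ, d ∣ n → χ (n : ZMod q) = χ (d : ZMod q) * χ ((n / d : ℕ) : ZMod q) := by
    intro n d h
    rw [← map_mul, ← Nat.cast_mul, Nat.mul_div_cancel' h]
  -- the first part
  have e1 : ∑ n ∈ Ioc Y₁ Y₂, ((v1 V n : ℝ) : ℂ) * χ (n : ZMod q) =
      ∑ d ∈ Icc 1 V, ∑ k ∈ Ioc (Y₁ / d) (Y₂ / d),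
        (((ArithmeticFunction.moebius d : ℝ) : ℂ) * χ (d : ZMod q)) *
          (χ (k : ZMod q) * ((Real.log k : ℝ) : ℂ)) := by
    rw [← reorg]
    refine Finset.sum_congr rfl fun n _ => ?_
    unfold v1
    rw [Complex.ofReal_sum, Finset.sum_mul]
    refine Finset.sum_congr rfl fun d hd => ?_
    rw [Finset.mem_filter, Nat.mem_divisors] at hd
    rw [hdvd n d hd.1.1]
    push_cast
    ring
  have e2 : ∑ n ∈ Ioc Y₁ Y₂, ((v2 U V n : ℝ) : ℂ) * χ (n : ZMod q) =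
      ∑ e ∈ Icc 1 (U * V), ∑ k ∈ Ioc (Y₁ / e) (Y₂ / e),
        (((cc U V e : ℝ) : ℂ) * χ (e : ZMod q)) * χ (k : ZMod q) := by
    rw [← reorg]
    refine Finset.sum_congr rfl fun n _ => ?_
    unfold v2
    rw [Complex.ofReal_sum, Finset.sum_mul]
    refine Finset.sum_congr rfl fun d hd => ?_
    rw [Finset.mem_filter, Nat.mem_divisors] at hd
    rw [hdvd n d hd.1.1]
    ring
  have b1 : ‖∑ n ∈ Ioc Y₁ Y₂, ((v1 V n : ℝ) : ℂ) * χ (n : ZMod q)‖ ≤
      V * (2 * q * Real.log Y₂) := by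
    rw [e1]
    refine (norm_sum_le _ _).trans ?_
    have h : ∀ d ∈ Icc 1 V, ‖∑ k ∈ Ioc (Y₁ / d) (Y₂ / d),
        (((ArithmeticFunction.moebius d : ℝ) : ℂ) * χ (d : ZMod q)) *
          (χ (k : ZMod q) * ((Real.log k : ℝ) : ℂ))‖ ≤ 2 * q * Real.log Y₂ := by
      intro d hd
      rw [Finset.mem_Icc] at hd
      rw [← Finset.mul_sum, norm_mul, norm_mul, Complex.norm_real, Real.norm_eq_abs]
      have hm : |(ArithmeticFunction.moebius d : ℝ)| ≤ 1 := by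
        exact_mod_cast ArithmeticFunction.abs_moebius_le_one
      have hc : ‖χ (d : ZMod q)‖ ≤ 1 := χ.norm_le_one _
      have hmc : |(ArithmeticFunction.moebius d : ℝ)| * ‖χ (d : ZMod q)‖ ≤ 1 :=
        mul_le_one₀ hm (norm_nonneg _) hc
      have hl := log_sum_bd hχ (Nat.div_le_div_right (c := d) hY)
      have hlog : Real.log ((Y₂ / d : ℕ) : ℝ) ≤ Real.log Y₂ := by
        rcases Nat.eq_zero_or_pos (Y₂ / d) with h0 | h0
        · rw [h0]
          simpa using hlY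
        · refine Real.log_le_log (by exact_mod_cast h0) ?_
          exact_mod_cast Nat.div_le_self _ _
      calc |(ArithmeticFunction.moebius d : ℝ)| * ‖χ (d : ZMod q)‖ *
          ‖∑ k ∈ Ioc (Y₁ / d) (Y₂ / d), χ (k : ZMod q) * ((Real.log k : ℝ) : ℂ)‖
          ≤ 1 * ‖∑ k ∈ Ioc (Y₁ / d) (Y₂ / d), χ (k : ZMod q) * ((Real.log k : ℝ) : ℂ)‖ :=
            mul_le_mul_of_nonneg_right hmc (norm_nonneg _)
        _ ≤ 2 * q * Real.log ((Y₂ / d : ℕ) : ℝ) := by rw [one_mul]; exact hl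
        _ ≤ 2 * q * Real.log Y₂ := mul_le_mul_of_nonneg_left hlog (by positivity)
    refine (Finset.sum_le_card_nsmul _ _ _ h).trans ?_
    rw [Nat.card_Icc, nsmul_eq_mul]
    simp
  have b2 : ‖∑ n ∈ Ioc Y₁ Y₂, ((v2 U V n : ℝ) : ℂ) * χ (n : ZMod q)‖ ≤
      (U * V) * (Real.log (U * V) * q) := by
    rw [e2]
    refine (norm_sum_le _ _).trans ?_
    have h : ∀ e ∈ Icc 1 (U * V), ‖∑ k ∈ Ioc (Y₁ / e) (Y₂ / e),
        (((cc U V e : ℝ) : ℂ) * χ (e : ZMod q)) * χ (k : ZMod q)‖ ≤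
          Real.log (U * V) * q := by
      intro e he
      rw [Finset.mem_Icc] at he
      rw [← Finset.mul_sum, norm_mul, norm_mul, Complex.norm_real, Real.norm_eq_abs]
      have hc : ‖χ (e : ZMod q)‖ ≤ 1 := χ.norm_le_one _
      have hl := sum_bd' hχ (Nat.div_le_div_right (c := e) hY)
      have hlog : Real.log (e : ℝ) ≤ Real.log (U * V) := by
        refine Real.log_le_log (by exact_mod_cast he.1) ?_
        exact_mod_cast he.2
      have hle0 : 0 ≤ Real.log (e : ℝ) := Real.log_natCast_nonneg e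
      have hcc := (hCCB.1 U V e he.1).trans hlog
      have h3 : |cc U V e| * ‖χ (e : ZMod q)‖ ≤ Real.log (U * V) := by
        calc |cc U V e| * ‖χ (e : ZMod q)‖ ≤ |cc U V e| * 1 :=
              mul_le_mul_of_nonneg_left hc (abs_nonneg _)
          _ ≤ Real.log (U * V) := by rw [mul_one]; exact hcc
      exact mul_le_mul h3 hl (norm_nonneg _) (hle0.trans hlog)
    refine (Finset.sum_le_card_nsmul _ _ _ h).trans ?_
    rw [Nat.card_Icc, nsmul_eq_mul]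
    push_cast
    simp
  have e3 : ∑ n ∈ Ioc Y₁ Y₂, ((v1 V n - v2 U V n : ℝ) : ℂ) * χ (n : ZMod q) =
      ∑ n ∈ Ioc Y₁ Y₂, ((v1 V n : ℝ) : ℂ) * χ (n : ZMod q) -
        ∑ n ∈ Ioc Y₁ Y₂, ((v2 U V n : ℝ) : ℂ) * χ (n : ZMod q) := by
    rw [← Finset.sum_sub_distrib]
    refine Finset.sum_congr rfl fun n _ => ?_
    push_cast
    ring
  rw [e3]
  refine (norm_sub_le _ _).trans ((add_le_add b1 b2).trans ?_)
  have hU1 : (1 : ℝ) ≤ U := by exact_mod_cast hU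
  have hV1 : (1 : ℝ) ≤ V := by exact_mod_cast hV
  have hUV : 0 ≤ Real.log ((U : ℝ) * V) := Real.log_nonneg (by nlinarith)
  have k0 : 0 ≤ (q : ℝ) * V * Real.log Y₂ := by positivity
  have k1 : (q : ℝ) * V * Real.log Y₂ ≤ U * ((q : ℝ) * V * Real.log Y₂) :=
    le_mul_of_one_le_left k0 hU1
  have k2 : 0 ≤ (q : ℝ) * U * V * Real.log ((U : ℝ) * V) := by positivity
  have k3 : 0 ≤ (q : ℝ) * U * V := by positivity
  have k4 : 0 ≤ U * ((q : ℝ) * V * Real.log Y₂) := by positivity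
  have e4 : 3 * (q : ℝ) * U * V * (1 + Real.log Y₂ + Real.log (U * V)) =
      3 * ((q : ℝ) * U * V) + 3 * (U * ((q : ℝ) * V * Real.log Y₂)) +
        3 * ((q : ℝ) * U * V * Real.log ((U : ℝ) * V)) := by ring
  have e5 : (V : ℝ) * (2 * q * Real.log Y₂) + U * V * (Real.log (U * V) * q) =
      2 * ((q : ℝ) * V * Real.log Y₂) + (q : ℝ) * U * V * Real.log ((U : ℝ) * V) := by ring
  rw [e4, e5]
  linarith

end Pool.Agent.Lib.BVS
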