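import Pool.Agent.Lib.BVS.Spec
import Pool.Agent.Lib.MP_d1f1b5_nt.TB.VAU
import Pool.Agent.Lib.MP_d1f1b5_nt.TB.KUM

/-!
# Module TYBP: type II sums for all moduli and primitive characters
-/

set_option autoImplicit false

namespace Pool.Agent.Lib.BVS

open Finset Filter Topology
open scoped Classical
open Pool.Agent.Lib.MP_d1f1b5_nt.TB (v1 v2 v3 psiX)
open Pool.Agent.Lib.MP_d1f1b5_nt.TB (bb specDIV specCCB)
open Pool.Agent.Lib.MP_d1f1b5_nt

namespace TYBPM

theorem psum_le_sum {q : ℕ} {ι : Type*} (s : Finset ι) (Φ : DirichletCharacter ℂ q → ℝ)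
    (Ψ : ι → DirichletCharacter ℂ q → ℝ) (h : ∀ χ, Φ χ ≤ ∑ i ∈ s, Ψ i χ) :
    psum q Φ ≤ ∑ i ∈ s, psum q (Ψ i) := by
  unfold psum
  split_ifs with hq
  · simp
  · have : NeZero q := ⟨hq⟩
    rw [Finset.sum_comm]
    exact Finset.sum_le_sum (fun χ _ => h χ)

theorem psum_zero (q : ℕ) : psum q (fun _ => 0) = 0 := by
  unfold psum
  split_ifs with hq
  · rfl
  · simp

end TYBPM

noncomputable section

theorem specTYBP (hBILP : SpecBILP) : SpecTYBP := by
  obtain ⟨C, hC, HB⟩ := hBILP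
  refine ⟨128 * C, by positivity, ?_⟩
  intro R U V Y₁ Y₂ hR hRU hRV hY hY2 hUV
  have hR2 : 1 ≤ R ^ 2 := Nat.one_le_pow _ _ (by omega)
  have hU1 : 1 ≤ U := hR2.trans hRU
  have hV1 : 1 ≤ V := hR2.trans hRV
  have hY2' : (2 : ℝ) ≤ Y₂ := by exact_mod_cast hY2
  have hY0 : (0 : ℝ) < Y₂ := by linarith
  set L : ℝ := 1 + Real.log Y₂ with hLdef
  have hlY : 0 < Real.log Y₂ := Real.log_pos (by linarith)
  have hL1 : 1 ≤ L := by rw [hLdef]; linarith
  have hl2 : Real.log 2 < 0.6931471808 := Real.log_two_lt_d9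
  have hl2' : 0.6931471803 < Real.log 2 := Real.log_two_gt_d9
  -- the number of blocks
  set I : ℕ := Nat.log 2 Y₂ + 1 with hIdef
  have hIY : Y₂ ≤ 2 ^ I * V := by
    have h1 : Y₂ < 2 ^ I := Nat.lt_pow_succ_log_self (by norm_num) Y₂
    calc Y₂ ≤ 2 ^ I := h1.le
      _ ≤ 2 ^ I * V := Nat.le_mul_of_pos_right _ hV1
  have hIL : (I : ℝ) ≤ 2 * L := by
    have h1 : 2 ^ Nat.log 2 Y₂ ≤ Y₂ := Nat.pow_log_le_self 2 (by omega)
    have h2 : (2 : ℝ) ^ Nat.log 2 Y₂ ≤ Y₂ := by exact_mod_cast h1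
    have h3 : (Nat.log 2 Y₂ : ℝ) * Real.log 2 ≤ Real.log Y₂ := by
      rw [← Real.log_pow]
      exact Real.log_le_log (by positivity) h2
    have h4 : (0 : ℝ) ≤ (Nat.log 2 Y₂ : ℝ) := Nat.cast_nonneg _
    rw [hIdef, hLdef]
    push_cast
    nlinarith
  -- reduction to the blocks
  have hred : ∑ q ∈ Ioc R (2 * R), psum q (fun χ => ‖∑ n ∈ Ioc Y₁ Y₂,
        ((v3 U V n : ℝ) : ℂ) * χ (n : ZMod q)‖)
      ≤ ∑ q ∈ Ioc R (2 * R), ∑ i ∈ range I, psum q (fun χ =>
          ‖TB.TYBM.blk χ U V Y₁ Y₂ (2 ^ i * V) (Y₂ / (2 ^ i * V) + 1)‖) := by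
    apply Finset.sum_le_sum
    intro q _
    apply TYBPM.psum_le_sum
    intro χ
    rw [TB.TYBM.sum_eq_blk χ U V Y₁ Y₂ I hV1 hIY]
    exact norm_sum_le _ _
  refine hred.trans ?_
  rw [Finset.sum_comm]
  have hblk : ∀ i ∈ range I, ∑ q ∈ Ioc R (2 * R), psum q (fun χ =>
      ‖TB.TYBM.blk χ U V Y₁ Y₂ (2 ^ i * V) (Y₂ / (2 ^ i * V) + 1)‖) ≤ 64 * C * Y₂ * L ^ 4 := by
    intro i _
    set K : ℕ := 2 ^ i * V with hKdef
    set M : ℕ := Y₂ / K + 1 with hMdef
    have hVK : V ≤ K := Nat.le_mul_of_pos_left V (by positivity)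
    have hK1 : 1 ≤ K := hV1.trans hVK
    rcases lt_or_ge Y₂ (K * U) with hlt | hge
    · have h0 : ∀ q ∈ Ioc R (2 * R), psum q (fun χ => ‖TB.TYBM.blk χ U V Y₁ Y₂ K M‖) = 0 := by
        intro q _
        have : (fun χ : DirichletCharacter ℂ q => ‖TB.TYBM.blk χ U V Y₁ Y₂ K M‖)
            = fun _ => 0 := by
          funext χ
          rw [TB.TYBM.blk_zero χ U V Y₁ Y₂ K M hlt, norm_zero]
        rw [this, TYBPM.psum_zero]
      rw [Finset.sum_eq_zero h0]
      positivity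
    · have hdm := Nat.div_add_mod Y₂ K
      have hml := Nat.mod_lt Y₂ (show K > 0 by omega)
      have hKM1 : Y₂ ≤ K * M := by
        rw [hMdef, Nat.mul_add, Nat.mul_one]
        omega
      have hKY : K ≤ Y₂ := (Nat.le_mul_of_pos_right K hU1).trans hge
      have hKM2 : K * M ≤ 2 * Y₂ := by
        rw [hMdef, Nat.mul_add, Nat.mul_one]
        have : K * (Y₂ / K) ≤ Y₂ := Nat.mul_div_le Y₂ K
        omega
      have hUM : U ≤ M := by
        have : U ≤ Y₂ / K := by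
          rw [Nat.le_div_iff_mul_le (by omega), Nat.mul_comm]
          exact hge
        omega
      have hM1 : 1 ≤ M := hU1.trans hUM
      have hMY : M ≤ 2 * Y₂ := by
        calc M = 1 * M := (Nat.one_mul M).symm
          _ ≤ K * M := Nat.mul_le_mul_right M hK1
          _ ≤ 2 * Y₂ := hKM2
      refine (HB R K M Y₁ Y₂ (bb V) (TB.TYBM.bf U) hR hK1 hM1 hY hKM1).trans ?_
      have hK1' : (1 : ℝ) ≤ K := by exact_mod_cast hK1
      have hM1' : (1 : ℝ) ≤ M := by exact_mod_cast hM1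
      have hMY' : (M : ℝ) ≤ 2 * Y₂ := by exact_mod_cast hMY
      have hKY' : (K : ℝ) ≤ Y₂ := by exact_mod_cast hKY
      have hlog2Y : Real.log (2 * (Y₂ : ℝ)) = Real.log 2 + Real.log Y₂ :=
        Real.log_mul (by norm_num) hY0.ne'
      have hlM : Real.log M ≤ Real.log 2 + Real.log Y₂ := by
        rw [← hlog2Y]
        exact Real.log_le_log (by linarith) hMY'
      have hlM0 : 0 ≤ Real.log M := Real.log_nonneg hM1'
      have hlK : Real.log ((2 * K : ℕ) : ℝ) ≤ Real.log 2 + Real.log Y₂ := by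
        rw [← hlog2Y]
        push_cast
        exact Real.log_le_log (by linarith) (by linarith)
      have hlK0 : 0 ≤ Real.log ((2 * K : ℕ) : ℝ) := by
        apply Real.log_nonneg
        push_cast
        linarith
      have hA := TB.TYBM.bb_sq specDIV specCCB V K hK1
      have hB := TB.TYBM.bf_sq U M
      have hRK : ((R : ℝ)) ^ 2 ≤ K := by exact_mod_cast hRV.trans hVK
      have hRM : ((R : ℝ)) ^ 2 ≤ M := by exact_mod_cast hRU.trans hUM
      have hKM' : (K : ℝ) * M ≤ 2 * Y₂ := by exact_mod_cast hKM2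
      apply TB.TYBM.num_bound (lK := Real.log ((2 * K : ℕ) : ℝ)) hC (by linarith) (by linarith)
        (by positivity) hRK hRM hKM' hL1 hY0 hlM0 (by rw [hLdef]; linarith)
        (by linarith) (by rw [hLdef]; linarith)
        (Finset.sum_nonneg (fun k _ => sq_nonneg _)) _
        (Finset.sum_nonneg (fun k _ => sq_nonneg _)) hB
      refine hA.trans (le_of_eq ?_)
      push_cast
      ring
  calc ∑ i ∈ range I, ∑ q ∈ Ioc R (2 * R), psum q (fun χ =>
      ‖TB.TYBM.blk χ U V Y₁ Y₂ (2 ^ i * V) (Y₂ / (2 ^ i * V) + 1)‖)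
      ≤ ∑ i ∈ range I, 64 * C * Y₂ * L ^ 4 := Finset.sum_le_sum hblk
    _ = I * (64 * C * Y₂ * L ^ 4) := by
        rw [Finset.sum_const, Finset.card_range, nsmul_eq_mul]
    _ ≤ (2 * L) * (64 * C * Y₂ * L ^ 4) := by
        apply mul_le_mul_of_nonneg_right hIL (by positivity)
    _ = 128 * C * Y₂ * L ^ 5 := by ring

end

end Pool.Agent.Lib.BVS
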