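import Pool.Agent.Lib.BVS.LSP
import Pool.Agent.Lib.BVS.BILP
import Pool.Agent.Lib.BVS.TYAP
import Pool.Agent.Lib.BVS.TYBP
import Pool.Agent.Lib.BVS.MVP
import Pool.Agent.Lib.BVS.MVX
import Pool.Agent.Lib.BVS.PIX
import Pool.Agent.Lib.BVS.SPL
import Pool.Agent.Lib.BVS.TOT
import Pool.Agent.Lib.BVS.DYA
import Pool.Agent.Lib.BVS.BVS

/-!
# The Bombieri-Vinogradov theorem at a small level, without hypotheses
-/

set_option autoImplicit false

namespace Pool.Agent.Lib.BVS

theorem mvp : SpecMVP := specMVP specTYAP (specTYBP (specBILP specLSP))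

theorem pix : SpecPIX := specPIX (specMVX mvp)

/-- the Bombieri-Vinogradov theorem at a small level -/
theorem bvs : SpecBVS := specBVS specSPL specTOT (specDYA pix specTOT)

end Pool.Agent.Lib.BVS
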