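import Pool.Agent.Lib.MP_d1f1b5_nt.TB.Spec

/-!
# The Bombieri-Vinogradov theorem at a small level

THEOREM (`SpecBVS`). There is `e > 0` such that for every `B`, all large `x` and all classes `a q` coprime to `q`
`∑_{q ≤ x^e} |π(x; q, a_q) - π(x)/φ(q)| ≤ x/(log x)^B`.

METHOD. Vaughan's identity and the large sieve for all primitive characters (the modules BILP, TYAP, TYBP, MVP
are the modules BIL, TYA, TYB, MV of `Lib/MP_d1f1b5_nt/TB` with ALL moduli `q ∈ (R, 2R]` and the PRIMITIVE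
characters in place of the prime moduli and all characters `≠ 1`), partial summation, reduction to primitive characters, and the
Siegel-Walfisz theorem (`Pool.Agent.Lib.SW.siegelWalfisz`, file `Pool/Agent/Lib/SW/Main.lean`) for the small moduli.

Every file `BVS/XXX.lean` imports `Pool.Agent.Lib.BVS.Spec` (and the landed files named in the docstring) and proves
`theorem specXXX (hYYY : SpecYYY) ... : SpecXXX` in the namespace `Pool.Agent.Lib.BVS`, its own lemmas in the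
namespace `XXXM`. Specs of THIS file are hypotheses in the order of USES; everything else is landed and cited.
-/

set_option autoImplicit false

namespace Pool.Agent.Lib.BVS

open Finset Filter Topology
open scoped Classical
open Pool.Agent.Lib.MP_d1f1b5_nt.TB (v1 v2 v3 psiX)

noncomputable section

/-- the sum of `Φ χ` over the primitive characters modulo `q` -/
def psum (q : ℕ) (Φ : DirichletCharacter ℂ q → ℝ) : ℝ :=
  if h : q = 0 then 0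
  else
    haveI : NeZero q := ⟨h⟩
    ∑ χ ∈ (univ : Finset (DirichletCharacter ℂ q)).filter (fun χ => χ.IsPrimitive), Φ χ

theorem psum_eq (q : ℕ) [NeZero q] (Φ : DirichletCharacter ℂ q → ℝ) :
    psum q Φ = ∑ χ ∈ (univ : Finset (DirichletCharacter ℂ q)).filter (fun χ => χ.IsPrimitive), Φ χ := by
  unfold psum
  rw [dif_neg (NeZero.ne q)]

/-- the sum over the primitive characters of `|∑_{p ≤ N} χ(p)|` -/
def PP (q N : ℕ) : ℝ :=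
  psum q (fun χ => ‖∑ p ∈ (Icc 1 N).filter Nat.Prime, χ (p : ZMod q)‖)

/-- LSP (80 lines): the large sieve with complex coefficients. Import `Pool.Agent.Lib.MP_391708_nt.QPA.LS`.

PROOF. `Pool.Agent.Lib.MP391708.QPA.specLS` (proved, without hypotheses) with `2 R` in place of `R`:
`∑_{r < 2R} (r+1)/φ(r+1) csum r b N ≤ C (N + 4 R²) ∑ b²` for real `b`, where `csum r b N` is the sum over the primitive
characters modulo `r + 1` of `|∑_{u ≤ N} b_u ψ(u)|²`; the weights are `≥ 1` and the `q = r + 1 ∈ (R, 2R]` are among them.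
For complex `a = b + i c`: `|∑ a_n χ(n)|² ≤ 2 |∑ b_n χ(n)|² + 2 |∑ c_n χ(n)|²` and `|a|² = b² + c²`. -/
def SpecLSP : Prop := ∃ C : ℝ, 0 < C ∧ ∀ (R N : ℕ) (a : ℕ → ℂ), 1 ≤ R → 1 ≤ N →
  ∑ q ∈ Ioc R (2 * R), psum q (fun χ => ‖∑ n ∈ Icc 1 N, a n * χ (n : ZMod q)‖ ^ 2)
    ≤ C * ((N : ℝ) + (R : ℝ) ^ 2) * ∑ n ∈ Icc 1 N, ‖a n‖ ^ 2

/-- BILP (150 lines), USES LSP. Import `TB.BIL` and `TB.DFT` (`Pool/Agent/Lib/MP_d1f1b5_nt/TB`).

PROOF. Copy of `TB.specBIL` with `psum` and `Ioc R (2R)` in place of `dsum` and `PR R`; `BILM.expand`, `BILM.inv_sum_le`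
can be cited, `TB.specDFT` is proved without hypotheses. In place of LSI for `(K, 2K]` use LSP with `N = 2K`, coefficients `0`
for `k ≤ K` (factor `2K + R² ≤ 2 (K + R²)`), and for `[1, M]` LSP with `N = M`. -/
def SpecBILP : Prop := ∃ C : ℝ, 0 < C ∧ ∀ (R K M Y₁ Y₂ : ℕ) (a b : ℕ → ℝ), 1 ≤ R → 1 ≤ K → 1 ≤ M →
  Y₁ ≤ Y₂ → Y₂ ≤ K * M →
  ∑ q ∈ Ioc R (2 * R), psum q (fun χ => ‖∑ k ∈ Ioc K (2 * K),
      ∑ d ∈ (Icc 1 M).filter (fun d => Y₁ < k * d ∧ k * d ≤ Y₂),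
        ((a k * b d : ℝ) : ℂ) * (χ (k : ZMod q) * χ (d : ZMod q))‖)
    ≤ C * (1 + Real.log M) * √(((K : ℝ) + (R : ℝ) ^ 2) * ((M : ℝ) + (R : ℝ) ^ 2))
        * √((∑ k ∈ Ioc K (2 * K), (a k) ^ 2) * ∑ d ∈ Icc 1 M, (b d) ^ 2)

/-- TYAP (60 lines): type I sums for every modulus. Import `TB.TYA` and `TB.CCB`.

PROOF. The proof of `TB.specTYA specCCB` does not use that `q` is prime (the hypothesis `hq` is not used); `TYAM.*` can be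
cited, `TB.specCCB` is proved without hypotheses. -/
def SpecTYAP : Prop := ∀ (q U V Y₁ Y₂ : ℕ) [NeZero q] (χ : DirichletCharacter ℂ q), χ ≠ 1 →
  1 ≤ U → 1 ≤ V → Y₁ ≤ Y₂ → 1 ≤ Y₂ →
  ‖∑ n ∈ Ioc Y₁ Y₂, ((v1 V n - v2 U V n : ℝ) : ℂ) * χ (n : ZMod q)‖
    ≤ 3 * q * U * V * (1 + Real.log Y₂ + Real.log (U * V))

/-- TYBP (150 lines), USES BILP: type II sums. Import `TB.TYB`, `TB.DIV`, `TB.CCB`.

PROOF. Copy of `TB.specTYB` with `psum` and `Ioc R (2R)`; all lemmas of `TYBM` about one character (`v3_sum`, `sum_eq_blk`,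
`blk_zero`, `bf_sq`, `bb_sq`, `num_bound`) can be cited; `TB.specDIV`, `TB.specCCB` are proved without hypotheses. -/
def SpecTYBP : Prop := ∃ C : ℝ, 0 < C ∧ ∀ R U V Y₁ Y₂ : ℕ, 1 ≤ R → R ^ 2 ≤ U → R ^ 2 ≤ V → Y₁ ≤ Y₂ →
  2 ≤ Y₂ → U * V ≤ Y₂ →
  ∑ q ∈ Ioc R (2 * R), psum q (fun χ => ‖∑ n ∈ Ioc Y₁ Y₂, ((v3 U V n : ℝ) : ℂ) * χ (n : ZMod q)‖)
    ≤ C * Y₂ * (1 + Real.log Y₂) ^ 5

/-- MVP (140 lines), USES TYAP, TYBP. Import `TB.VAU` (and `TB.MV` for its lemmas).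

PROOF. Copy of `TB.specMV` with `psum` and `Ioc R (2R)` (`TB.specVAU` is proved without hypotheses). For `q > R ≥ 1` a primitive
character modulo `q` is `≠ 1` (the conductor of `1` is `1`); the number of characters modulo `q` is `φ(q) ≤ q ≤ 2R`. -/
def SpecMVP : Prop := ∃ C : ℝ, 0 < C ∧ ∀ R Y₁ Y₂ : ℕ, 1 ≤ R → R ^ 10 ≤ Y₁ → Y₁ ≤ Y₂ → Y₂ ≤ 3 * Y₁ →
  ∑ q ∈ Ioc R (2 * R), psum q (fun χ => ‖psiX χ Y₁ Y₂‖) ≤ C * Y₁ * (1 + Real.log Y₁) ^ 5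

/-- MVX (120 lines), USES MVP: the interval `[1, N]`.

PROOF. (1) For `N ≥ R^10`: `∑ ∑* |psiX χ (R^10) N| ≤ 2 C N (1 + log N)^5`, by strong induction on `N`. If `N ≤ 3 R^10` this is
MVP. Otherwise `N ≥ 4`; put `M = ⌈N/3⌉`: `R^10 ≤ M ≤ N ≤ 3M` and `M ≤ N/2`. `psiX χ (R^10) N = psiX χ (R^10) M +
psiX χ M N`, so the sum is at most `2 C M (1 + log M)^5 + C M (1 + log M)^5 ≤ (3/2) C N (1 + log N)^5`. (2) `n ≤ R^10`: each
`|psiX χ 0 (R^10)| ≤ R^10 log (R^10) ≤ R^10 log N`, at most `R * 2R` characters, so at most `2 R^12 log N ≤ 2 N log N`. -/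
def SpecMVX : Prop := ∃ C : ℝ, 0 < C ∧ ∀ R N : ℕ, 1 ≤ R → R ^ 12 ≤ N →
  ∑ q ∈ Ioc R (2 * R), psum q (fun χ => ‖psiX χ 0 N‖) ≤ C * N * (1 + Real.log N) ^ 5

/-- PIX (180 lines), USES MVX: from prime powers with `Λ` to primes.

PROOF. Put `θ(n, χ) = ∑_{p ≤ n} χ(p) log p`, `L(n) = ∑ ∑* |θ(n, χ)|` (`q ∈ (R, 2R]`, `χ` primitive), `n ≤ N`. (1)
`|psiX χ 0 n - θ(n, χ)| ≤ ψ(n) - θ(n) ≤ C₁ √n log n` (`Chebyshev.abs_psi_sub_theta_le_sqrt_mul_log` in Mathlib, see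
its use in `TB/GOO.lean`). The number of pairs `(q, χ)` is at most `2 R²`. For `R^12 ≤ n ≤ N` MVX gives
`L(n) ≤ C N (1 + log N)^5 + 2 R² C₁ √N log N`, and `R² ≤ √N`; for `n < R^12` trivially
`L(n) ≤ 2 R² n log n ≤ 2 R^14 log N ≤ 2 N log N`. So `L(n) ≤ C₂ N (1 + log N)^5` for all `n ≤ N`. (2) Partial summation
(`N ≥ 2`; `N < 2` is trivial as then there are no primes):
`∑_{p ≤ N} χ(p) = θ(N, χ)/log N + ∑_{2 ≤ n < N} θ(n, χ) (1/log n - 1/log (n+1))` (induction on `N`), the weights are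
nonnegative with sum `1/log 2 ≤ 2`. So `∑ ∑* |∑_{p ≤ N} χ(p)| ≤ 2 max L(n) ≤ 2 C₂ N (1 + log N)^5`. -/
def SpecPIX : Prop := ∃ C : ℝ, 0 < C ∧ ∀ R N : ℕ, 1 ≤ R → R ^ 14 ≤ N →
  ∑ q ∈ Ioc R (2 * R), PP q N ≤ C * N * (1 + Real.log N) ^ 5

/-- SPL (200 lines): reduction to primitive characters. Import `Pool.Agent.Lib.MP_391708_nt.QPA.BDHChar` and
`Pool.Agent.Lib.SW.SWA`.

PROOF. `SWAM.orth` and the proof of `SWAM.main` with `w = 1`, `S` = the primes `≤ N`, keeping the sum over the characters: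
`φ(q) |π(N; q, a) - π(N)/φ(q)| ≤ ∑_{χ ≠ 1} |∑_{p ≤ N} χ(p)| + #{p ≤ N : p ∣ q}`, the last number is at most `q`
(`SWAM.bound_primes`). As in `QPA.BDH.char_split` (same proof with the norm in place of its square;
`BDH.exists_prim`, `BDH.sum_changeLevel`) every `χ ≠ 1` is induced by a primitive `ψ` modulo `d ∣ q`, `d ≠ 1`, injectively for
given `d`, and `∑_{p ≤ N} χ(p) = ∑_{p ≤ N, p ∤ q} ψ(p)` differs from `∑_{p ≤ N} ψ(p)` by at most `#{p ∣ q} ≤ q`. There are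
at most `φ(q)` characters. Total: `∑_{d ∣ q, d ≠ 1} PP d N + φ(q) q + q`; divide by `φ(q) ≥ 1`. (To bound the number of
pairs `(d, ψ)`: sum over `χ` first, i.e. `|χ-sum| ≤ |ψ_χ-sum| + q`, then go over to the pairs.) -/
def SpecSPL : Prop := ∀ q a N : ℕ, 0 < q → a.Coprime q →
  |(((Icc 1 N).filter (fun p => p.Prime ∧ p ≡ a [MOD q])).card : ℝ) -
    (((Icc 1 N).filter Nat.Prime).card : ℝ) / q.totient| ≤
  (∑ d ∈ q.divisors.filter (fun d => d ≠ 1), PP d N) / q.totient + 2 * q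

/-- TOT (120 lines): the totient and the sum over the multiples of `d`.

PROOF. `one`: `n/φ(n) = ∏_{p ∣ n} (1 + 1/(p-1)) ≤ ∏_{j=1}^{k} (1 + 1/j) = k + 1` with `k = ω(n)` (the `j`-th smallest
prime is `≥ j + 1`), and `2^k ≤ n`; so `n/φ(n) ≤ 1 + log n/log 2 ≤ 2 (1 + log n)`. (A similar bound may be in Lib: grep
totient.) `two`: exchange the sums, `q = d k`, `k ≤ Q/d ≤ Q`, `φ(d k) ≥ φ(d) φ(k)` (`Nat.totient_super_multiplicative`),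
`∑_{k ≤ Q} 1/φ(k) ≤ 2 (1 + log Q) ∑_{k ≤ Q} 1/k ≤ 2 (1 + log Q)²`. -/
structure SpecTOT : Prop where
  one : ∀ n : ℕ, 1 ≤ n → 1 / (n.totient : ℝ) ≤ 2 * (1 + Real.log n) / n
  two : ∀ (Q : ℕ) (P : ℕ → ℝ), 1 ≤ Q → (∀ d, 0 ≤ P d) →
    ∑ q ∈ Icc 1 Q, (∑ d ∈ q.divisors.filter (fun d => d ≠ 1), P d) / q.totient ≤
      2 * (1 + Real.log Q) ^ 2 * ∑ d ∈ Icc 2 Q, P d / d.totient

/-- DYA (100 lines), USES PIX, TOT: the large moduli.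

PROOF. `(D, Q] ⊆ ⋃_{i} (R_i, 2 R_i]`, `R_i = 2^i D`, over the `i` with `R_i < Q` (then `R_i^14 ≤ Q^14 ≤ N`). For `d ∈ (R, 2R]`,
`R ≤ Q ≤ N`: `1/φ(d) ≤ 2 (1 + log (2R))/R ≤ 4 (1 + log N)/R` by TOT.one (`1 + log (2R) ≤ 2 (1 + log R)`). PIX:
`∑_{d ∈ (R, 2R]} PP d N/φ(d) ≤ 4 C N (1 + log N)^6/R`. Sum over `i`: `∑ 1/R_i ≤ 2/D`. -/
def SpecDYA : Prop := ∃ C : ℝ, 0 < C ∧ ∀ D Q N : ℕ, 1 ≤ D → D ≤ Q → Q ^ 14 ≤ N →
  ∑ d ∈ Ioc D Q, PP d N / d.totient ≤ C * N * (1 + Real.log N) ^ 6 / D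

/-- BVS (180 lines), USES SPL, TOT, DYA: the theorem. Import `Pool.Agent.Lib.SW.Main`. helper9

PROOF. `e = 1/28`, `Q = ⌊x^e⌋`, `N = ⌊x⌋`, `Q^14 ≤ x^(1/2) ≤ N`, `D = ⌊(log x)^A⌋`, `A = B + 10`. By SPL and TOT.two the sum is at
most `2 (1 + log Q)² (∑_{2 ≤ d ≤ D} PP d N/φ(d) + ∑_{D < d ≤ Q} PP d N/φ(d)) + 2 Q²`. For `d ≤ D` the third part of
`Pool.Agent.Lib.SW.siegelWalfisz` gives `PP d N ≤ φ(d) x/(log x)^(2A)`, the first sum is `≤ x/(log x)^A`; the second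
sum is `≤ 2 C x (1 + log x)^6/(log x)^A` by DYA. -/
def SpecBVS : Prop := ∃ ε : ℝ, 0 < ε ∧ ∀ B : ℕ, ∃ x₀ : ℝ, ∀ x : ℝ, x₀ ≤ x → ∀ a : ℕ → ℕ,
  (∀ q, (a q).Coprime q) →
  ∑ q ∈ Icc 1 ⌊x ^ ε⌋₊, |(((Icc 1 ⌊x⌋₊).filter (fun p => p.Prime ∧ p ≡ a q [MOD q])).card : ℝ) -
    (((Icc 1 ⌊x⌋₊).filter Nat.Prime).card : ℝ) / q.totient| ≤ x / Real.log x ^ B

end

end Pool.Agent.Lib.BVS
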